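import Pool.Agent.H40.BPool.Model

open MeasureTheory ProbabilityTheory Set
open scoped ENNReal NNReal

namespace Pool.Agent.H40.BPool

lemma pi_ne_zero' : ENNReal.ofReal Real.pi ≠ 0 := by
  simp [Real.pi_pos]

lemma pi_ne_top' : ENNReal.ofReal Real.pi ≠ ∞ := ENNReal.ofReal_ne_top

lemma grow_sq (r : ℝ≥0∞) (m : ℕ∞) :
    (grow r m) ^ 2 = r ^ 2 + (m : ℝ≥0∞) / ENNReal.ofReal Real.pi := by
  unfold grow
  rw [← ENNReal.rpow_natCast, ← ENNReal.rpow_mul]
  norm_num

lemma pi_mul_grow_sq (r : ℝ≥0∞) (m : ℕ∞) :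
    ENNReal.ofReal Real.pi * (grow r m) ^ 2 = ENNReal.ofReal Real.pi * r ^ 2 + (m : ℝ≥0∞) := by
  rw [grow_sq, mul_add, ENNReal.mul_div_cancel pi_ne_zero' pi_ne_top']

lemma lt_of_pi_mul_sq_lt {a b : ℝ≥0∞}
    (h : ENNReal.ofReal Real.pi * a ^ 2 < ENNReal.ofReal Real.pi * b ^ 2) : a < b := by
  by_contra hab
  push Not at hab
  exact absurd h (not_lt.mpr (by gcongr))

lemma le_grow (r : ℝ≥0∞) (m : ℕ∞) : r ≤ grow r m := by
  by_contra h
  push Not at h
  have h1 : (grow r m) ^ 2 < r ^ 2 := by
    have := ENNReal.pow_right_strictMono (n := 2) (by norm_num)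
    exact this h
  rw [grow_sq] at h1
  exact absurd h1 (not_lt.mpr le_self_add)

lemma disc_mono {r s : ℝ≥0∞} (h : r ≤ s) : disc r ⊆ disc s := fun _ hy => le_trans hy h

lemma isClosed_disc (r : ℝ≥0∞) : IsClosed (disc r) :=
  isClosed_le continuous_enorm continuous_const

/-- set of active particles counted in the first `j` steps -/
def counted (act : Set ℕ) (p : ℕ → Plane) (D : Set Plane) (r : ℝ≥0∞) (j : ℕ) : Set ℕ :=
  {i ∈ act | p i ∈ (recursion act p D r j).1 \ D}

lemma recursion_fst_subset (act : Set ℕ) (p : ℕ → Plane) {D : Set Plane} {r : ℝ≥0∞}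
    (hD : D ⊆ disc r) (j : ℕ) :
    (recursion act p D r j).1 ⊆ disc (recursion act p D r j).2 := by
  cases j with
  | zero => simpa [recursion] using hD
  | succ j =>
    simp only [recursion]
    exact disc_mono (le_grow _ _)

lemma subset_recursion_fst (act : Set ℕ) (p : ℕ → Plane) {D : Set Plane} {r : ℝ≥0∞}
    (hD : D ⊆ disc r) (j : ℕ) :
    D ⊆ (recursion act p D r j).1 := by
  induction j with
  | zero => simp [recursion]
  | succ j ih =>
    exact ih.trans (recursion_fst_subset act p hD j)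

lemma counted_succ (act : Set ℕ) (p : ℕ → Plane) {D : Set Plane} {r : ℝ≥0∞}
    (hD : D ⊆ disc r) (j : ℕ) :
    (counted act p D r (j + 1)).encard = (counted act p D r j).encard + xi act p D r j := by
  have h1 := recursion_fst_subset act p hD j
  have h2 := subset_recursion_fst act p hD j
  unfold xi
  rw [← encard_union_eq]
  · congr 1
    ext i
    simp only [counted, recursion, mem_ofPred_eq, mem_sdiff, mem_union]
    constructor
    · rintro ⟨ha, hb, hc⟩
      by_cases hd : p i ∈ (recursion act p D r j).1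
      · exact Or.inl ⟨ha, hd, hc⟩
      · exact Or.inr ⟨ha, hb, hd⟩
    · rintro (⟨ha, hb, hc⟩ | ⟨ha, hb, hc⟩)
      · exact ⟨ha, h1 hb, hc⟩
      · exact ⟨ha, hb, fun hd => hc (h2 hd)⟩
  · rw [Set.disjoint_left]
    rintro i ⟨_, hb, _⟩ ⟨_, _, hc⟩
    exact hc hb

lemma le_recursion_snd (act : Set ℕ) (p : ℕ → Plane) (D : Set Plane) (r : ℝ≥0∞) (j : ℕ) :
    r ≤ (recursion act p D r j).2 := by
  induction j with
  | zero => simp [recursion]
  | succ j ih => exact ih.trans (by simp only [recursion]; exact le_grow _ _)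

lemma le_outcome (act : Set ℕ) (p : ℕ → Plane) (D : Set Plane) (r : ℝ≥0∞) :
    r ≤ outcome act p D r := by
  unfold outcome
  split_ifs
  · exact le_recursion_snd act p D r _
  · exact le_top

/-- The pool recursion cannot cross a radius `R` which is larger than what the total number of
available particles allows. -/
lemma outcome_bound {V : Set ℕ} (hV : V.Finite) {act a0 : Set ℕ} {p : ℕ → Plane} {D : Set Plane}
    {r0 R : ℝ≥0∞} (hR : 1 + (V.encard : ℝ≥0∞) < ENNReal.ofReal Real.pi * R ^ 2)
    (h0 : ENNReal.ofReal Real.pi * r0 ^ 2 ≤ 1 + (a0.encard : ℝ≥0∞)) (ha0 : a0 ⊆ V)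
    (hdisj : ∀ i ∈ a0, i ∈ act → p i ∈ D) (hD : D ⊆ disc r0)
    (hvis : ∀ i ∈ act, p i ∈ disc R → i ∈ V) :
    outcome act p D r0 < R ∧
      ENNReal.ofReal Real.pi * (outcome act p D r0) ^ 2 ≤
        1 + ((a0 ∪ {i ∈ act | p i ∈ disc (outcome act p D r0)}).encard : ℝ≥0∞) := by
  -- main induction
  have hdis : ∀ j, Disjoint a0 (counted act p D r0 j) := by
    intro j
    rw [Set.disjoint_left]
    rintro i hi ⟨ha, _, hc⟩
    exact hc (hdisj i hi ha)
  have key : ∀ j, (recursion act p D r0 j).2 < R ∧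
      ENNReal.ofReal Real.pi * (recursion act p D r0 j).2 ^ 2 ≤
        1 + ((a0 ∪ counted act p D r0 j).encard : ℝ≥0∞) ∧ a0 ∪ counted act p D r0 j ⊆ V := by
    intro j
    induction j with
    | zero =>
      have hc : counted act p D r0 0 = ∅ := by
        simp [counted, recursion]
      have hle : ENNReal.ofReal Real.pi * r0 ^ 2 ≤ 1 + ((a0 ∪ counted act p D r0 0).encard : ℝ≥0∞) := by
        simpa [hc] using h0
      have hsub : a0 ∪ counted act p D r0 0 ⊆ V := by simpa [hc] using ha0
      refine ⟨lt_of_pi_mul_sq_lt (lt_of_le_of_lt hle (lt_of_le_of_lt ?_ hR)), hle, hsub⟩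
      gcongr
    | succ j ih =>
      obtain ⟨ih1, ih2, ih3⟩ := ih
      have hsub : a0 ∪ counted act p D r0 (j + 1) ⊆ V := by
        apply union_subset ha0
        rintro i ⟨ha, hb, _⟩
        apply hvis i ha
        simp only [recursion] at hb
        exact disc_mono ih1.le hb
      have hle : ENNReal.ofReal Real.pi * (recursion act p D r0 (j + 1)).2 ^ 2 ≤
          1 + ((a0 ∪ counted act p D r0 (j + 1)).encard : ℝ≥0∞) := by
        rw [encard_union_eq (hdis _), counted_succ act p hD j, ← add_assoc,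
          ← encard_union_eq (hdis _)]
        simp only [recursion]
        rw [pi_mul_grow_sq]
        push_cast
        rw [← add_assoc]
        unfold xi
        gcongr
      refine ⟨lt_of_pi_mul_sq_lt (lt_of_le_of_lt hle (lt_of_le_of_lt ?_ hR)), hle, hsub⟩
      gcongr
  -- the recursion stops
  have hstop : ∃ j, xi act p D r0 j = 0 := by
    by_contra hcon
    push Not at hcon
    have hgrow : ∀ j : ℕ, (j : ℕ∞) ≤ (counted act p D r0 j).encard := by
      intro j
      induction j with
      | zero => simp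
      | succ j ih =>
        rw [counted_succ act p hD j]
        push_cast
        exact add_le_add ih (Order.one_le_iff_pos.mpr (pos_iff_ne_zero.mpr (hcon j)))
    have hbound : ∀ j : ℕ, (j : ℕ∞) ≤ V.encard := fun j =>
      (hgrow j).trans (encard_le_encard (subset_union_right.trans (key j).2.2))
    have hfin : V.encard ≠ ⊤ := by
      rw [Set.encard_ne_top_iff]; exact hV
    obtain ⟨n, hn⟩ := ENat.ne_top_iff_exists.mp hfin
    have := hbound (n + 1)
    rw [← hn] at this
    have h2 : n + 1 ≤ n := by exact_mod_cast this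
    omega
  have hout : outcome act p D r0 = (recursion act p D r0 (Nat.find hstop + 1)).2 := by
    unfold outcome
    rw [dif_pos hstop]
  obtain ⟨k1, k2, k3⟩ := key (Nat.find hstop + 1)
  rw [← hout] at k1 k2
  refine ⟨k1, k2.trans ?_⟩
  gcongr
  rintro i ⟨ha, hb, _⟩
  refine ⟨ha, ?_⟩
  have := recursion_fst_subset act p hD (Nat.find hstop + 1) hb
  rwa [← hout] at this

/-- The particles which visit the disc `B(R)` before time `T`. -/
def visitors (x : ℕ → ℝ≥0 → Plane) (R : ℝ≥0∞) (T : ℝ≥0) : Set ℕ :=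
  {i | ∃ u : ℝ≥0, u ≤ T ∧ x i u ∈ disc R}

lemma visitors_mono (x : ℕ → ℝ≥0 → Plane) {R R' : ℝ≥0∞} {T T' : ℝ≥0} (hR : R ≤ R') (hT : T ≤ T') :
    visitors x R T ⊆ visitors x R' T' := by
  rintro i ⟨u, hu, hi⟩
  exact ⟨u, hu.trans hT, disc_mono hR hi⟩

lemma time_le_nextTime (x : ℕ → ℝ≥0 → Plane) (s : PoolState) : s.time ≤ nextTime x s := by
  unfold nextTime
  apply le_sInf
  rintro t ⟨ht, _⟩
  exact ht.le

/-- The engulfing time is attained. -/
lemma nextTime_attained {x : ℕ → ℝ≥0 → Plane} (hx : ∀ i, Continuous (x i)) {s : PoolState}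
    {R : ℝ≥0∞} {T : ℝ≥0} (hfin : (visitors x R (T + 1)).Finite) (hs : s.radius ≤ R)
    (hT : nextTime x s ≤ T) :
    ∃ i, i ∉ s.absorbed ∧ x i (nextTime x s).toNNReal ∈ disc s.radius := by
  set A : Set ℝ≥0∞ :=
    {t : ℝ≥0∞ | s.time < t ∧ ∃ u : ℝ≥0, t = u ∧ ∃ i, i ∉ s.absorbed ∧ x i u ∈ disc s.radius} with hA
  have hdef : nextTime x s = sInf A := rfl
  have hne : A.Nonempty := by
    by_contra h
    rw [not_nonempty_iff_eq_empty] at h
    rw [hdef, h, sInf_empty] at hT
    simp at hT
  have hmem : sInf A ∈ closure A := csInf_mem_closure hne (OrderBot.bddBelow A)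
  -- closed set
  set C : Set ℕ := visitors x R (T + 1) \ s.absorbed with hC
  have hCfin : C.Finite := hfin.subset sdiff_subset
  set K : Set ℝ≥0 := ⋃ i ∈ C, {u : ℝ≥0 | u ≤ T + 1 ∧ x i u ∈ disc s.radius} with hK
  have hKclosed : IsClosed K := by
    apply hCfin.isClosed_biUnion
    intro i _
    exact (isClosed_le continuous_id continuous_const).inter
      ((isClosed_disc s.radius).preimage (hx i))
  have hKcomp : IsCompact K := by
    apply (isCompact_Icc (a := (0 : ℝ≥0)) (b := T + 1)).of_isClosed_subset hKclosed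
    intro u hu
    simp only [hK, mem_iUnion, mem_ofPred_eq] at hu
    obtain ⟨i, _, hu, _⟩ := hu
    exact ⟨zero_le, hu⟩
  have hF : IsClosed ((fun u : ℝ≥0 => (u : ℝ≥0∞)) '' K) :=
    (hKcomp.image ENNReal.continuous_coe).isClosed
  have hopen : IsOpen (Set.Iio ((T : ℝ≥0∞) + 1)) := isOpen_Iio
  have hlt : sInf A < (T : ℝ≥0∞) + 1 := by
    rw [← hdef]
    refine lt_of_le_of_lt hT ?_
    exact ENNReal.lt_add_right ENNReal.coe_ne_top one_ne_zero
  have hmem2 : sInf A ∈ closure (A ∩ Set.Iio ((T : ℝ≥0∞) + 1)) := by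
    have := closure_inter_open_nonempty_iff hopen (s := A)
    rw [_root_.mem_closure_iff]
    intro o ho hmo
    rw [_root_.mem_closure_iff] at hmem
    obtain ⟨y, hy1, hy2⟩ := hmem (o ∩ Set.Iio ((T : ℝ≥0∞) + 1)) (ho.inter hopen) ⟨hmo, hlt⟩
    exact ⟨y, hy1.1, hy2, hy1.2⟩
  have hsub : A ∩ Set.Iio ((T : ℝ≥0∞) + 1) ⊆ (fun u : ℝ≥0 => (u : ℝ≥0∞)) '' K := by
    rintro t ⟨⟨_, u, rfl, i, hi, hxi⟩, ht⟩
    refine ⟨u, ?_, rfl⟩
    have hu : u ≤ T + 1 := by
      have : (u : ℝ≥0∞) < ((T + 1 : ℝ≥0) : ℝ≥0∞) := by simpa using ht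
      exact (ENNReal.coe_lt_coe.mp this).le
    simp only [hK, mem_iUnion, mem_ofPred_eq]
    exact ⟨i, ⟨⟨u, hu, disc_mono hs hxi⟩, hi⟩, hu, hxi⟩
  have hfinal : sInf A ∈ (fun u : ℝ≥0 => (u : ℝ≥0∞)) '' K :=
    (closure_minimal hsub hF) hmem2
  obtain ⟨u, hu, hu2⟩ := hfinal
  simp only [hK, mem_iUnion, mem_ofPred_eq] at hu
  obtain ⟨i, hiC, _, hxi⟩ := hu
  refine ⟨i, hiC.2, ?_⟩
  have : (nextTime x s).toNNReal = u := by
    rw [hdef, ← hu2]; simp
  rw [this]
  exact hxi

/-- The deterministic barrier: if the number of particles visiting `B(R)` before time `T` is less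
than `π R² - 1`, then the pool stays inside `B(R)` until time `T`. -/
theorem barrier {x : ℕ → ℝ≥0 → Plane} (hx : ∀ i, Continuous (x i)) {R : ℝ≥0∞} {T : ℝ≥0}
    (hfin : (visitors x R (T + 1)).Finite)
    (hR : 1 + ((visitors x R T).encard : ℝ≥0∞) < ENNReal.ofReal Real.pi * R ^ 2) (k : ℕ) :
    (poolState x k).time ≤ T → (poolState x k).radius ≤ R ∧ (poolState x k).absorbed ⊆ visitors x R T ∧
      ENNReal.ofReal Real.pi * (poolState x k).radius ^ 2 ≤
        1 + ((poolState x k).absorbed.encard : ℝ≥0∞) := by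
  have hVfin : (visitors x R T).Finite := hfin.subset (visitors_mono x le_rfl (by simp))
  induction k with
  | zero =>
    intro _
    simp only [poolState, initialState]
    set E := outcome Set.univ (fun i => x i 0) ∅ (ENNReal.ofReal (1 / Real.sqrt Real.pi)) with hE
    have h0 : ENNReal.ofReal Real.pi * (ENNReal.ofReal (1 / Real.sqrt Real.pi)) ^ 2 ≤
        1 + ((∅ : Set ℕ).encard : ℝ≥0∞) := by
      rw [← ENNReal.ofReal_pow (by positivity), ← ENNReal.ofReal_mul Real.pi_pos.le]
      rw [div_pow, Real.sq_sqrt Real.pi_pos.le]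
      have : Real.pi * (1 ^ 2 / Real.pi) = 1 := by
        field_simp
      rw [this]
      simp
    have := outcome_bound hVfin (act := Set.univ) (a0 := ∅) (p := fun i => x i 0) (D := ∅)
      (r0 := ENNReal.ofReal (1 / Real.sqrt Real.pi)) hR h0 (empty_subset _) (by simp)
      (empty_subset _) (by
        intro i _ hi
        exact ⟨0, zero_le, hi⟩)
    rw [← hE] at this
    refine ⟨this.1.le, ?_, ?_⟩
    · intro i hi
      exact ⟨0, zero_le, disc_mono this.1.le hi⟩
    · simpa using this.2
  | succ k ih =>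
    intro hT
    simp only [poolState] at hT ⊢
    set s := poolState x k with hs
    unfold nextState at hT ⊢
    split_ifs at hT ⊢ with htop
    · simp at hT
    · simp only at hT ⊢
      obtain ⟨ih1, ih2, ih3⟩ := ih ((time_le_nextTime x s).trans hT)
      obtain ⟨i0, hi0, hxi0⟩ := nextTime_attained hx hfin ih1 hT
      set τ : ℝ≥0 := (nextTime x s).toNNReal with hτ
      have hτT : τ ≤ T := by
        have : (nextTime x s).toNNReal ≤ (T : ℝ≥0∞).toNNReal :=
          ENNReal.toNNReal_mono ENNReal.coe_ne_top hT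
        simpa using this
      set E := outcome s.absorbedᶜ (fun i => x i τ) (disc s.radius) (grow s.radius 1) with hE
      have ha0 : insert i0 s.absorbed ⊆ visitors x R T := by
        apply insert_subset _ ih2
        exact ⟨τ, hτT, disc_mono ih1 hxi0⟩
      have h0 : ENNReal.ofReal Real.pi * (grow s.radius 1) ^ 2 ≤
          1 + ((insert i0 s.absorbed).encard : ℝ≥0∞) := by
        rw [pi_mul_grow_sq, encard_insert_of_notMem hi0]
        push_cast
        rw [← add_assoc]
        gcongr
      have := outcome_bound hVfin (act := s.absorbedᶜ) (a0 := insert i0 s.absorbed)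
        (p := fun i => x i τ) (D := disc s.radius) (r0 := grow s.radius 1) hR h0 ha0 (by
          rintro i (rfl | hi) hact
          · exact hxi0
          · exact absurd hi hact) (disc_mono (le_grow _ _)) (by
          intro i _ hi
          exact ⟨τ, hτT, hi⟩)
      rw [← hE] at this
      have hsub : s.absorbed ∪ {i | x i τ ∈ disc E} ⊆ visitors x R T := by
        apply union_subset ih2
        intro i hi
        exact ⟨τ, hτT, disc_mono this.1.le hi⟩
      refine ⟨this.1.le, hsub, this.2.trans ?_⟩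
      refine add_le_add le_rfl (ENat.toENNReal_le.mpr (encard_le_encard ?_))
      intro i hi
      rcases (mem_union _ _ _).mp hi with hi | hi
      · rcases mem_insert_iff.mp hi with hi | hi
        · right
          rw [hi]
          exact disc_mono ((le_grow _ _).trans (le_outcome _ _ _ _)) hxi0
        · exact Or.inl hi
      · exact Or.inr hi.2

/-- Sanity check for `poolRadius`: every engulfing adds at least one unit of area, so if infinitely
many engulfing times are `≤ t` then the radii after them tend to `∞`. -/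
theorem area_ge (x : ℕ → ℝ≥0 → Plane) (k : ℕ) (hk : (poolState x k).time ≠ ∞) :
    (k : ℝ≥0∞) + 1 ≤ ENNReal.ofReal Real.pi * (poolState x k).radius ^ 2 := by
  induction k with
  | zero =>
    simp only [poolState, initialState]
    have h0 : ENNReal.ofReal Real.pi * (ENNReal.ofReal (1 / Real.sqrt Real.pi)) ^ 2 = 1 := by
      rw [← ENNReal.ofReal_pow (by positivity), ← ENNReal.ofReal_mul Real.pi_pos.le]
      rw [div_pow, Real.sq_sqrt Real.pi_pos.le]
      have : Real.pi * (1 ^ 2 / Real.pi) = 1 := by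
        field_simp
      rw [this]
      simp
    rw [Nat.cast_zero, zero_add]
    calc (1 : ℝ≥0∞) = ENNReal.ofReal Real.pi * (ENNReal.ofReal (1 / Real.sqrt Real.pi)) ^ 2 :=
          h0.symm
      _ ≤ _ := by
          gcongr
          exact le_outcome _ _ _ _
  | succ k ih =>
    have htop : nextTime x (poolState x k) ≠ ∞ := by
      intro htop
      apply hk
      simp only [poolState, nextState, htop, if_true]
    have hk' : (poolState x k).time ≠ ∞ := ne_top_of_le_ne_top htop (time_le_nextTime x _)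
    have ih' := ih hk'
    simp only [poolState, nextState, if_neg htop]
    calc ((k + 1 : ℕ) : ℝ≥0∞) + 1 ≤ ENNReal.ofReal Real.pi * (poolState x k).radius ^ 2 + 1 := by
          push_cast
          gcongr
      _ = ENNReal.ofReal Real.pi * (grow (poolState x k).radius 1) ^ 2 := by
          rw [pi_mul_grow_sq]
          simp
      _ ≤ _ := by
          gcongr
          exact le_outcome _ _ _ _

end Pool.Agent.H40.BPool
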