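import Pool.Agent.H40.BPool.Model

open MeasureTheory ProbabilityTheory Set
open scoped ENNReal NNReal

namespace Pool.Agent.H40.BPool

variable {Ω : Type*} [MeasurableSpace Ω] {P : Measure Ω}

/-- Gaussian tail, in polynomial form. -/
lemma gaussian_tail_one {Z : Ω → ℝ} {v : ℝ≥0} (hZ : HasLaw Z (gaussianReal 0 v) P) {u : ℝ}
    (hu : 0 < u) : P.real {ω | u ≤ Z ω} ≤ 8 * v ^ 2 / u ^ 4 := by
  have hP : IsProbabilityMeasure P := hZ.isProbabilityMeasure
  rcases eq_or_ne v 0 with rfl | hv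
  · have h0 : Z =ᵐ[P] fun _ => 0 := by
      apply HasLaw.ae_eq_of_dirac
      rw [← gaussianReal_zero_var]
      exact hZ
    have : P.real {ω | u ≤ Z ω} = 0 := by
      rw [measureReal_def]
      have : P {ω | u ≤ Z ω} = 0 := by
        rw [← nonpos_iff_eq_zero]
        calc P {ω | u ≤ Z ω} ≤ P {ω | ¬ Z ω = 0} := by
              apply measure_mono
              intro ω hω
              simp only [mem_ofPred_eq] at hω ⊢
              intro h
              rw [h] at hω
              linarith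
          _ = 0 := h0
          _ ≤ 0 := le_rfl
      simp [this]
    rw [this]
    positivity
  · have hvpos : (0 : ℝ) < v := by positivity
    have hmap : P.map Z = gaussianReal 0 v := hZ.map_eq
    have hint : Integrable (fun ω => Real.exp ((u / v) * Z ω)) P := by
      have := integrable_exp_mul_gaussianReal (μ := 0) (v := v) (u / v)
      rw [← hmap] at this
      exact this.comp_aemeasurable hZ.aemeasurable
    have h1 := measure_ge_le_exp_mul_mgf (μ := P) (X := Z) u (t := u / v) (by positivity) hint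
    rw [mgf_gaussianReal hmap] at h1
    have h2 : Real.exp (-(u / v) * u) * Real.exp (0 * (u / v) + v * (u / v) ^ 2 / 2) =
        Real.exp (-(u ^ 2 / (2 * v))) := by
      rw [← Real.exp_add]
      congr 1
      field_simp
      ring
    rw [h2] at h1
    refine h1.trans ?_
    set y := u ^ 2 / (2 * v) with hy
    have hypos : 0 < y := by positivity
    have h3 : y ^ 2 / 2 ≤ Real.exp y := by
      have := Real.quadratic_le_exp_of_nonneg hypos.le
      nlinarith
    rw [Real.exp_neg]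
    have h4 : (Real.exp y)⁻¹ ≤ (y ^ 2 / 2)⁻¹ := by
      apply inv_anti₀ (by positivity) h3
    refine h4.trans (le_of_eq ?_)
    rw [hy]
    field_simp
    ring

lemma gaussian_tail {Z : Ω → ℝ} {v : ℝ≥0} (hZ : HasLaw Z (gaussianReal 0 v) P) {u : ℝ}
    (hu : 0 < u) : P {ω | u ≤ |Z ω|} ≤ ENNReal.ofReal (16 * v ^ 2 / u ^ 4) := by
  have hP : IsProbabilityMeasure P := hZ.isProbabilityMeasure
  have hneg : HasLaw (-Z) (gaussianReal 0 v) P := by
    simpa using gaussianReal_neg hZ
  have h1 := gaussian_tail_one hZ hu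
  have h2 : P.real {ω | u ≤ - Z ω} ≤ 8 * v ^ 2 / u ^ 4 := gaussian_tail_one hneg hu
  have hsub : {ω | u ≤ |Z ω|} ⊆ {ω | u ≤ Z ω} ∪ {ω | u ≤ - Z ω} := by
    intro ω hω
    simp only [mem_ofPred_eq, mem_union] at hω ⊢
    exact le_abs.mp hω
  calc P {ω | u ≤ |Z ω|} ≤ P ({ω | u ≤ Z ω} ∪ {ω | u ≤ - Z ω}) := measure_mono hsub
    _ ≤ P {ω | u ≤ Z ω} + P {ω | u ≤ - Z ω} := measure_union_le _ _
    _ = ENNReal.ofReal (P.real {ω | u ≤ Z ω}) + ENNReal.ofReal (P.real {ω | u ≤ - Z ω}) := by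
        simp [measureReal_def]
    _ ≤ ENNReal.ofReal (8 * v ^ 2 / u ^ 4) + ENNReal.ofReal (8 * v ^ 2 / u ^ 4) := by
        gcongr
    _ = ENNReal.ofReal (16 * v ^ 2 / u ^ 4) := by
        rw [← ENNReal.ofReal_add (by positivity) (by positivity)]
        congr 1
        ring

/-- Dyadic times in `[0,T]`. -/
noncomputable def dy (T : ℝ≥0) (n k : ℕ) : ℝ≥0 := (k : ℝ≥0) * T / 2 ^ n

/-- deterministic chaining -/
lemma chaining {w : ℝ≥0 → ℝ} {T : ℝ≥0} (h0 : w 0 = 0) {δ : ℕ → ℝ} (hδ : ∀ n, 0 ≤ δ n)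
    (h : ∀ n k, k < 2 ^ n → |w (dy T n (k + 1)) - w (dy T n k)| ≤ δ n) (n k : ℕ) (hk : k ≤ 2 ^ n) :
    |w (dy T n k)| ≤ ∑ m ∈ Finset.range (n + 1), δ m := by
  induction n generalizing k with
  | zero =>
    have hk' : k = 0 ∨ k = 1 := by
      have : k ≤ 1 := by simpa using hk
      omega
    rcases hk' with rfl | rfl
    · simp [dy, h0, hδ]
    · have := h 0 0 (by simp)
      simp only [dy, Nat.cast_zero, zero_mul, zero_div, h0, sub_zero] at this
      simpa [dy] using this
  | succ n ih =>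
    rw [Finset.sum_range_succ]
    rcases Nat.even_or_odd' k with ⟨j, hj | hj⟩
    · have e : dy T (n + 1) k = dy T n j := by
        unfold dy
        rw [hj]
        push_cast
        rw [pow_succ]
        field_simp
      rw [e]
      have := ih j (by rw [pow_succ] at hk; omega)
      linarith [hδ (n + 1)]
    · have e : dy T (n + 1) (2 * j) = dy T n j := by
        unfold dy
        push_cast
        rw [pow_succ]
        field_simp
      have h1 := ih j (by rw [pow_succ] at hk; omega)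
      have h2 := h (n + 1) (2 * j) (by omega)
      rw [e] at h2
      rw [hj]
      have h3 : |w (dy T (n + 1) (2 * j + 1))| ≤
          |w (dy T (n + 1) (2 * j + 1)) - w (dy T n j)| + |w (dy T n j)| := by
        have := abs_add_le (w (dy T (n + 1) (2 * j + 1)) - w (dy T n j)) (w (dy T n j))
        simpa using this
      linarith

/-- Tail bound for the maximum of a Brownian motion over the dyadic times of `[0,T]`. -/
lemma brownian_dyadic_tail {W : ℝ≥0 → Ω → ℝ} (hW : IsBrownianReal W P) (T : ℝ≥0) {a : ℝ}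
    (ha : 0 < a) :
    P {ω | ∃ n k, k ≤ 2 ^ n ∧ a < |W (dy T n k) ω|} ≤
      ENNReal.ofReal (10 ^ 6 * T ^ 2 / a ^ 4) := by
  set δ : ℕ → ℝ := fun n => a / 10 * (9 / 10) ^ n with hδdef
  have hδ : ∀ n, 0 < δ n := fun n => by positivity
  have hsum : HasSum δ a := by
    have h := (hasSum_geometric_of_lt_one (r := (9 / 10 : ℝ)) (by norm_num) (by norm_num)).mul_left
      (a / 10)
    convert! h using 1
    norm_num
  have h0 : ∀ᵐ ω ∂P, W 0 ω = 0 := hW.eval_zero_ae_eq_zero
  -- the bad event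
  have hinc : ∀ n k, P {ω | δ n ≤ |W (dy T n (k + 1)) ω - W (dy T n k) ω|} ≤
      ENNReal.ofReal (16 * (T / 2 ^ n) ^ 2 / δ n ^ 4) := by
    intro n k
    have hlaw := hW.hasLaw_sub (dy T n (k + 1)) (dy T n k)
    have hv : nndist (dy T n (k + 1)).1 (dy T n k).1 = T / 2 ^ n := by
      apply NNReal.coe_injective
      rw [coe_nndist, Real.dist_eq]
      have e : (dy T n (k + 1)).1 - (dy T n k).1 = T / 2 ^ n := by
        simp only [dy]
        push_cast
        simp only [NNReal.val_eq_coe]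
        push_cast
        ring
      rw [e, abs_of_nonneg (by positivity)]
      push_cast
      rfl
    rw [hv] at hlaw
    have := gaussian_tail hlaw (hδ n)
    simpa using this
  have hbad : {ω | ∃ n k, k ≤ 2 ^ n ∧ a < |W (dy T n k) ω|} ⊆
      {ω | ¬ W 0 ω = 0} ∪
        ⋃ n : ℕ, ⋃ k ∈ Finset.range (2 ^ n), {ω | δ n ≤ |W (dy T n (k + 1)) ω - W (dy T n k) ω|} := by
    intro ω hω
    by_contra hcon
    simp only [mem_union, mem_ofPred_eq, mem_iUnion, Finset.mem_range, not_or, not_not, not_exists,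
      not_le] at hcon
    obtain ⟨hz, hsmall⟩ := hcon
    obtain ⟨n, k, hk, hlt⟩ := hω
    have := chaining (w := fun t => W t ω) (T := T) hz (δ := δ) (fun n => (hδ n).le)
      (fun n k hk => (hsmall n k hk).le) n k hk
    have h2 : ∑ m ∈ Finset.range (n + 1), δ m ≤ a := by
      apply sum_le_hasSum _ (fun i _ => (hδ i).le) hsum
    linarith
  calc P {ω | ∃ n k, k ≤ 2 ^ n ∧ a < |W (dy T n k) ω|}
      ≤ P ({ω | ¬ W 0 ω = 0} ∪
        ⋃ n : ℕ, ⋃ k ∈ Finset.range (2 ^ n),
          {ω | δ n ≤ |W (dy T n (k + 1)) ω - W (dy T n k) ω|}) := measure_mono hbad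
    _ ≤ P {ω | ¬ W 0 ω = 0} + P (⋃ n : ℕ, ⋃ k ∈ Finset.range (2 ^ n),
          {ω | δ n ≤ |W (dy T n (k + 1)) ω - W (dy T n k) ω|}) := measure_union_le _ _
    _ = P (⋃ n : ℕ, ⋃ k ∈ Finset.range (2 ^ n),
          {ω | δ n ≤ |W (dy T n (k + 1)) ω - W (dy T n k) ω|}) := by
        have : P {ω | ¬ W 0 ω = 0} = 0 := h0
        rw [this, zero_add]
    _ ≤ ∑' n : ℕ, P (⋃ k ∈ Finset.range (2 ^ n),
          {ω | δ n ≤ |W (dy T n (k + 1)) ω - W (dy T n k) ω|}) := measure_iUnion_le _
    _ ≤ ∑' n : ℕ, ENNReal.ofReal (160000 * T ^ 2 / a ^ 4 * (5000 / 6561) ^ n) := by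
        apply ENNReal.tsum_le_tsum
        intro n
        calc P (⋃ k ∈ Finset.range (2 ^ n),
              {ω | δ n ≤ |W (dy T n (k + 1)) ω - W (dy T n k) ω|})
            ≤ ∑ k ∈ Finset.range (2 ^ n),
              P {ω | δ n ≤ |W (dy T n (k + 1)) ω - W (dy T n k) ω|} :=
              measure_biUnion_finset_le _ _
          _ ≤ ∑ k ∈ Finset.range (2 ^ n), ENNReal.ofReal (16 * (T / 2 ^ n) ^ 2 / δ n ^ 4) :=
              Finset.sum_le_sum fun k _ => hinc n k
          _ = ENNReal.ofReal (160000 * T ^ 2 / a ^ 4 * (5000 / 6561) ^ n) := by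
              rw [Finset.sum_const, Finset.card_range, nsmul_eq_mul]
              rw [← ENNReal.ofReal_natCast, ← ENNReal.ofReal_mul (by positivity)]
              congr 1
              simp only [hδdef]
              have h9 : ((9 / 10 : ℝ) ^ n) ^ 4 = (6561 / 10000) ^ n := by
                rw [← pow_mul, mul_comm n 4, pow_mul]
                norm_num
              have h5 : ((5000 : ℝ) / 6561) ^ n = (1 / 2) ^ n / (6561 / 10000) ^ n := by
                rw [← div_pow]
                norm_num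
              rw [mul_pow, h9, h5]
              push_cast
              have : (0:ℝ) < (6561 / 10000) ^ n := by positivity
              have h12 : ((1 : ℝ) / 2) ^ n * 2 ^ n = 1 := by
                rw [← mul_pow]; norm_num
              field_simp
              linear_combination (-(T : ℝ) ^ 2 * 160000) * h12
    _ = ENNReal.ofReal (160000 * T ^ 2 / a ^ 4 * (1 - 5000 / 6561)⁻¹) := by
        rw [← ENNReal.ofReal_tsum_of_nonneg (fun n => by positivity)]
        · rw [tsum_mul_left, tsum_geometric_of_lt_one (by norm_num) (by norm_num)]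
        · exact (summable_geometric_of_lt_one (by norm_num) (by norm_num)).mul_left _
    _ ≤ ENNReal.ofReal (10 ^ 6 * T ^ 2 / a ^ 4) := by
        apply ENNReal.ofReal_le_ofReal
        have h1 : 0 ≤ (T : ℝ) ^ 2 / a ^ 4 := by positivity
        have h2 : 160000 * (T : ℝ) ^ 2 / a ^ 4 * (1 - 5000 / 6561)⁻¹ =
          ((T : ℝ) ^ 2 / a ^ 4) * (160000 * (1 - 5000 / 6561)⁻¹) := by ring
        have h3 : 10 ^ 6 * (T : ℝ) ^ 2 / a ^ 4 = ((T : ℝ) ^ 2 / a ^ 4) * 10 ^ 6 := by ring
        rw [h2, h3]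
        apply mul_le_mul_of_nonneg_left _ h1
        norm_num

/-- Supremum norm of a path over the dyadic times of `[0,T]`. -/
noncomputable def dyadicSup (T : ℝ≥0) (w : ℝ≥0 → Plane) : ℝ≥0∞ :=
  ⨆ n : ℕ, ⨆ k : ℕ, ⨆ _ : k ≤ 2 ^ n, ‖w (dy T n k)‖ₑ

lemma measurable_dyadicSup (T : ℝ≥0) : Measurable (dyadicSup T) := by
  unfold dyadicSup
  refine Measurable.iSup fun n => Measurable.iSup fun k => Measurable.iSup fun _ => ?_
  exact (measurable_pi_apply _).enorm

lemma le_dyadicSup {T : ℝ≥0} (hT : 0 < T) {w : ℝ≥0 → Plane} (hw : Continuous w) {t : ℝ≥0}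
    (ht : t ≤ T) : ‖w t‖ₑ ≤ dyadicSup T w := by
  set k : ℕ → ℕ := fun n => ⌊t / T * 2 ^ n⌋₊ with hk
  have hk2 : ∀ n, k n ≤ 2 ^ n := by
    intro n
    apply Nat.floor_le_of_le
    push_cast
    have : t / T ≤ 1 := div_le_one_of_le₀ ht (by positivity)
    calc t / T * 2 ^ n ≤ 1 * 2 ^ n := by gcongr
      _ = 2 ^ n := one_mul _
  have hlim : Filter.Tendsto (fun n => dy T n (k n)) Filter.atTop (nhds t) := by
    have h1 : Filter.Tendsto (fun n : ℕ => (T : ℝ) * (1 / 2) ^ n) Filter.atTop (nhds (T * 0)) :=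
      (tendsto_pow_atTop_nhds_zero_of_lt_one (by norm_num) (by norm_num)).const_mul _
    rw [mul_zero] at h1
    rw [← NNReal.tendsto_coe]
    rw [tendsto_iff_dist_tendsto_zero]
    refine squeeze_zero (fun _ => dist_nonneg) (fun n => ?_) h1
    rw [Real.dist_eq]
    have hTp : (0 : ℝ) < T := hT
    have hf1 : ((k n : ℕ) : ℝ) ≤ (t : ℝ) / T * 2 ^ n := by
      have := Nat.floor_le (a := t / T * 2 ^ n) (by positivity)
      have h' : ((k n : ℕ) : ℝ≥0) ≤ t / T * 2 ^ n := this
      exact_mod_cast h'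
    have hf2 : (t : ℝ) / T * 2 ^ n < (k n : ℕ) + 1 := by
      have := Nat.lt_floor_add_one (t / T * 2 ^ n)
      have h' : t / T * 2 ^ n < ((k n : ℕ) : ℝ≥0) + 1 := this
      exact_mod_cast h'
    have e : ((dy T n (k n) : ℝ≥0) : ℝ) = (k n : ℝ) * T / 2 ^ n := by
      simp [dy]
    rw [e]
    have hp : (0 : ℝ) < 2 ^ n := by positivity
    have e1 : (k n : ℝ) * T / 2 ^ n ≤ t := by
      rw [div_le_iff₀ hp]
      have := mul_le_mul_of_nonneg_right hf1 hTp.le
      calc (k n : ℝ) * T ≤ (t : ℝ) / T * 2 ^ n * T := this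
        _ = t * 2 ^ n := by field_simp
    have e2 : (t : ℝ) ≤ (k n : ℝ) * T / 2 ^ n + T * (1 / 2) ^ n := by
      have h3 : (t : ℝ) * 2 ^ n ≤ ((k n : ℝ) + 1) * T := by
        have := mul_le_mul_of_nonneg_right hf2.le hTp.le
        calc (t : ℝ) * 2 ^ n = (t : ℝ) / T * 2 ^ n * T := by field_simp
          _ ≤ _ := this
      have h4 : (k n : ℝ) * T / 2 ^ n + T * (1 / 2) ^ n = ((k n : ℝ) + 1) * T / 2 ^ n := by
        rw [one_div, inv_pow]
        field_simp
      rw [h4, le_div_iff₀ hp]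
      exact h3
    have e3 : (0:ℝ) ≤ T * (1 / 2) ^ n := by positivity
    rw [abs_le]
    constructor
    · linarith
    · linarith
  have hcont : Filter.Tendsto (fun n => ‖w (dy T n (k n))‖ₑ) Filter.atTop (nhds ‖w t‖ₑ) :=
    ((continuous_enorm.comp hw).tendsto t).comp hlim
  refine le_of_tendsto' hcont fun n => ?_
  unfold dyadicSup
  exact le_iSup_of_le n (le_iSup_of_le (k n) (le_iSup_of_le (hk2 n) le_rfl))

/-- Tail of the dyadic supremum of a planar Brownian motion. -/
lemma planar_tail {W : ℝ≥0 → Ω → Plane} (hW : IsPlanarBrownian W P) (T : ℝ≥0) {a : ℝ}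
    (ha : 0 < a) :
    P {ω | ENNReal.ofReal a < dyadicSup T (fun t => W t ω)} ≤
      ENNReal.ofReal (32 * 10 ^ 6 * T ^ 2 / a ^ 4) := by
  have h0 := brownian_dyadic_tail (hW.coord 0) T (a := a / 2) (by positivity)
  have h1 := brownian_dyadic_tail (hW.coord 1) T (a := a / 2) (by positivity)
  have hsub : {ω | ENNReal.ofReal a < dyadicSup T (fun t => W t ω)} ⊆
      {ω | ∃ n k, k ≤ 2 ^ n ∧ a / 2 < |W (dy T n k) ω 0|} ∪
      {ω | ∃ n k, k ≤ 2 ^ n ∧ a / 2 < |W (dy T n k) ω 1|} := by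
    intro ω hω
    simp only [mem_ofPred_eq, dyadicSup, lt_iSup_iff] at hω
    obtain ⟨n, k, hk, hlt⟩ := hω
    by_contra hcon
    simp only [mem_union, mem_ofPred_eq, not_or, not_exists, not_and, not_lt] at hcon
    have c0 := hcon.1 n k hk
    have c1 := hcon.2 n k hk
    have hnorm : ‖W (dy T n k) ω‖ ≤ a := by
      rw [EuclideanSpace.norm_eq, Fin.sum_univ_two, Real.norm_eq_abs, Real.norm_eq_abs]
      apply Real.sqrt_le_iff.mpr
      refine ⟨ha.le, ?_⟩
      have b0 : |W (dy T n k) ω 0| ^ 2 ≤ (a / 2) ^ 2 := by gcongr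
      have b1 : |W (dy T n k) ω 1| ^ 2 ≤ (a / 2) ^ 2 := by gcongr
      nlinarith
    have : ‖W (dy T n k) ω‖ₑ ≤ ENNReal.ofReal a := by
      rw [← ofReal_norm]
      exact ENNReal.ofReal_le_ofReal hnorm
    exact absurd hlt (not_lt.mpr this)
  calc P {ω | ENNReal.ofReal a < dyadicSup T (fun t => W t ω)}
      ≤ _ := measure_mono hsub
    _ ≤ _ := measure_union_le _ _
    _ ≤ ENNReal.ofReal (10 ^ 6 * T ^ 2 / (a / 2) ^ 4) +
        ENNReal.ofReal (10 ^ 6 * T ^ 2 / (a / 2) ^ 4) := add_le_add h0 h1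
    _ = ENNReal.ofReal (32 * 10 ^ 6 * T ^ 2 / a ^ 4) := by
        rw [← ENNReal.ofReal_add (by positivity) (by positivity)]
        congr 1
        field_simp
        ring

end Pool.Agent.H40.BPool
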