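import Pool.Agent.H40.BPool.Marks
import Pool.Agent.H40.BPool.Chaining
import Pool.Agent.H40.BPool.Barrier

open MeasureTheory ProbabilityTheory Set Filter
open scoped ENNReal NNReal

namespace Pool.Agent.H40.BPool

variable {Ω : Type*} [MeasurableSpace Ω] {P : Measure Ω}

/-- the sparse scales -/
def scale (k : ℕ) : ℕ := 2 ^ (3 ^ k)

lemma scale_succ (k : ℕ) : scale (k + 1) = scale k ^ 3 := by
  unfold scale
  rw [← pow_mul, pow_succ]

lemma le_scale (k : ℕ) : k + 1 ≤ scale k := by
  unfold scale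
  have h1 : k < 3 ^ k := Nat.lt_pow_self (by norm_num)
  have h2 : 3 ^ k < 2 ^ (3 ^ k) := Nat.lt_pow_self (by norm_num)
  omega

lemma two_le_scale (k : ℕ) : 2 ≤ scale k := by
  unfold scale
  calc 2 = 2 ^ 1 := by norm_num
    _ ≤ 2 ^ (3 ^ k) := Nat.pow_le_pow_right (by norm_num) (Nat.one_le_pow _ _ (by norm_num))

lemma scale_strictMono : StrictMono scale := by
  intro a b hab
  unfold scale
  exact Nat.pow_lt_pow_right (by norm_num) (Nat.pow_lt_pow_right (by norm_num) hab)

/-- the shells -/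
def shell (k : ℕ) : Set Plane :=
  Metric.closedBall 0 ((scale (k + 1) : ℝ) + 1) \ Metric.closedBall 0 ((scale k : ℝ) + 1)

lemma measurableSet_shell (k : ℕ) : MeasurableSet (shell k) :=
  MeasurableSet.diff Metric.isClosed_closedBall.measurableSet Metric.isClosed_closedBall.measurableSet

/-- area of the shell -/
noncomputable def shellArea (k : ℕ) : ℝ :=
  Real.pi * (((scale (k + 1) : ℝ) + 1) ^ 2 - ((scale k : ℝ) + 1) ^ 2)

lemma scale_cast_lt (k : ℕ) : (scale k : ℝ) < scale (k + 1) := by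
  exact_mod_cast scale_strictMono (Nat.lt_succ_self k)

lemma volume_shell (k : ℕ) : volume (shell k) = ENNReal.ofReal (shellArea k) := by
  unfold shell shellArea
  rw [volume_annulus (by positivity) (by linarith [scale_cast_lt k])]

lemma shellArea_ge (k : ℕ) : (scale (k + 1) : ℝ) ^ 2 ≤ shellArea k := by
  unfold shellArea
  have h2 : (2 : ℝ) ≤ scale k := by exact_mod_cast two_le_scale k
  have h3 : (scale (k + 1) : ℝ) = (scale k : ℝ) ^ 3 := by
    rw [scale_succ]; push_cast; rfl
  rw [h3]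
  set r : ℝ := (scale k : ℝ)
  have hpi := Real.pi_gt_three
  have h4 : 0 ≤ (r ^ 3 + 1) ^ 2 - (r + 1) ^ 2 := by
    have : r ≤ r ^ 3 := by nlinarith [sq_nonneg r]
    nlinarith
  have h5 : 3 * ((r ^ 3 + 1) ^ 2 - (r + 1) ^ 2) ≤ Real.pi * ((r ^ 3 + 1) ^ 2 - (r + 1) ^ 2) :=
    mul_le_mul_of_nonneg_right hpi.le h4
  refine le_trans ?_ h5
  have h6 : r ^ 3 ≥ 4 * r := by nlinarith [mul_nonneg (by linarith : (0:ℝ) ≤ r - 2) (by linarith : (0:ℝ) ≤ r), sq_nonneg (r - 2)]
  nlinarith

lemma shellArea_le (k : ℕ) :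
    shellArea k ≤ Real.pi * (scale (k + 1) : ℝ) ^ 2 + 10 * scale (k + 1) := by
  unfold shellArea
  have h2 : (2 : ℝ) ≤ scale (k + 1) := by exact_mod_cast two_le_scale (k + 1)
  have hpi := Real.pi_lt_d2
  have hpi0 := Real.pi_pos
  nlinarith [mul_nonneg hpi0.le (sq_nonneg ((scale k : ℝ) + 1))]

/-- Few particles in the `k`-th shell. -/
def fewSet (C : ℝ) (k : ℕ) : Set ℕ∞ :=
  {c | ∃ n : ℕ, c = n ∧ (n : ℝ) ≤ shellArea k - C * Real.sqrt (shellArea k)}

lemma few_frequently {X : ℕ → Ω → Plane} (hX : IsPoissonPointProcess 1 X P) {C : ℝ}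
    (hC : 0 ≤ C) : ∀ᵐ ω ∂P, ∃ᶠ k in atTop, count X (shell k) ω ∈ fewSet C k := by
  have hP : IsProbabilityMeasure P := (hX.hasLaw ∅ MeasurableSet.empty (by simp)).isProbabilityMeasure
  obtain ⟨δ, hδ, r0, hr0⟩ := poisson_lower_dev C hC
  set E : ℕ → Set Ω := fun k => {ω | count X (shell k) ω ∈ fewSet C k} with hE
  have hEm : ∀ k, MeasurableSet (E k) := fun k =>
    measurable_count hX.measurable (measurableSet_shell k) MeasurableSet.of_discrete
  have hdisj : ∀ j k, j < k → Disjoint (shell j) (shell k) := by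
    intro j k hjk
    rw [Set.disjoint_left]
    rintro x ⟨hx1, _⟩ ⟨_, hx2⟩
    apply hx2
    rw [mem_closedBall_zero_iff] at hx1 ⊢
    have : scale (j + 1) ≤ scale k := scale_strictMono.monotone hjk
    have : (scale (j + 1) : ℝ) ≤ scale k := by exact_mod_cast this
    linarith
  have hind : iIndepFun (fun k => count X (shell k)) P := by
    rw [iIndepFun_iff_finset]
    intro s
    -- restrict from an initial segment
    have hn : ∃ n, ∀ i ∈ s, i < n := by
      refine ⟨s.sup id + 1, fun i hi => ?_⟩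
      have : i ≤ s.sup id := Finset.le_sup (f := id) hi
      omega
    obtain ⟨n, hn⟩ := hn
    have h1 := hX.indep n (fun j => shell j) (fun j => measurableSet_shell j) (fun j => by
      rw [volume_shell]; exact ENNReal.ofReal_ne_top) (by
        intro j k hjk
        rcases lt_or_gt_of_ne hjk with h | h
        · exact hdisj j k h
        · exact (hdisj k j h).symm)
    have h2 := h1.precomp (g := fun i : s => (⟨i.1, hn i.1 i.2⟩ : Fin n)) (by
      intro a b hab
      simp only [Fin.mk.injEq] at hab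
      exact Subtype.ext hab)
    exact h2
  have hindset : iIndepSet E P := by
    have h1 : iIndepFun (fun k => count X (shell k)) P := hind
    rw [iIndepSet_iff_meas_biInter hEm]
    intro s
    exact h1.meas_biInter (S := s) (fun i _ => ⟨fewSet C i, MeasurableSet.of_discrete, rfl⟩)
  -- probabilities
  have hprob : ∀ k, r0 ≤ (shellArea k).toNNReal → ENNReal.ofReal δ ≤ P (E k) := by
    intro k hk
    have hlaw := hX.hasLaw (shell k) (measurableSet_shell k) (by
      rw [volume_shell]; exact ENNReal.ofReal_ne_top)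
    have h1 := hr0 _ hk
    have h0 : 0 ≤ shellArea k := le_trans (by positivity) (shellArea_ge k)
    have e1 : P (E k) = P.map (count X (shell k)) (fewSet C k) := by
      rw [Measure.map_apply_of_aemeasurable hlaw.aemeasurable MeasurableSet.of_discrete]
      rfl
    rw [e1, hlaw.map_eq, Measure.map_apply Measurable.of_discrete MeasurableSet.of_discrete]
    have e2 : (1 : ℝ≥0) * (volume (shell k)).toNNReal = (shellArea k).toNNReal := by
      rw [one_mul, volume_shell]
      rfl
    rw [e2]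
    refine h1.trans (measure_mono ?_)
    intro n hn
    simp only [mem_ofPred_eq, Real.coe_toNNReal _ h0] at hn
    exact ⟨n, rfl, hn⟩
  have hlarge : ∀ᶠ k in atTop, r0 ≤ (shellArea k).toNNReal := by
    filter_upwards [eventually_ge_atTop ⌈(r0 : ℝ)⌉₊] with k hk
    rw [Real.le_toNNReal_iff_coe_le (le_trans (by positivity) (shellArea_ge k))]
    have h1 : (r0 : ℝ) ≤ k := (Nat.le_ceil _).trans (by exact_mod_cast hk)
    have h2 : (k : ℝ) + 1 ≤ scale (k + 1) := by
      have := le_scale (k + 1)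
      have h : k + 1 ≤ scale (k + 1) := by omega
      exact_mod_cast h
    have h3 := shellArea_ge k
    nlinarith [Nat.cast_nonneg (α := ℝ) k]
  have hsum : ∑' k, P (E k) = ∞ := by
    by_contra hne
    have htend := ENNReal.tendsto_atTop_zero_of_tsum_ne_top hne
    have hev : ∀ᶠ k in atTop, P (E k) < ENNReal.ofReal δ :=
      htend.eventually (gt_mem_nhds (by simpa using hδ))
    obtain ⟨k, hk1, hk2⟩ := (hlarge.and hev).exists
    exact absurd hk2 (not_lt.mpr (hprob k hk1))
  have hlim := measure_limsup_eq_one hEm hindset hsum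
  have hae : ∀ᵐ ω ∂P, ω ∈ limsup E atTop := by
    rw [← prob_compl_eq_zero_iff₀ (MeasurableSet.measurableSet_limsup hEm).nullMeasurableSet] at hlim
    exact hlim
  filter_upwards [hae] with ω hω
  rw [mem_limsup_iff_frequently_mem] at hω
  exact hω

/-- upper tail for the number of particles in the inner disc -/
lemma inner_tail {X : ℕ → Ω → Plane} (hX : IsPoissonPointProcess 1 X P) (k : ℕ) :
    P {ω | ((scale (k + 1) : ℕ) : ℕ∞) ≤ count X (Metric.closedBall 0 ((scale k : ℝ) + 1)) ω} ≤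
      ENNReal.ofReal (Real.exp 20000 * Real.exp (-(scale k : ℝ))) := by
  have hP : IsProbabilityMeasure P := (hX.hasLaw ∅ MeasurableSet.empty (by simp)).isProbabilityMeasure
  set r : ℝ := (scale k : ℝ) with hr
  have hr2 : (2 : ℝ) ≤ r := by rw [hr]; exact_mod_cast two_le_scale k
  have h3 : (scale (k + 1) : ℝ) = r ^ 3 := by
    rw [scale_succ]; push_cast; rfl
  have hvol : volume (Metric.closedBall (0 : Plane) (r + 1)) =
      ENNReal.ofReal (Real.pi * (r + 1) ^ 2) := by
    rw [EuclideanSpace.volume_closedBall_fin_two, ← ENNReal.ofReal_pow (by linarith),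
      ← ENNReal.ofReal_mul (by positivity)]
    congr 1
    ring
  have hmean := lintegral_expSup_count hX (A := Metric.closedBall (0 : Plane) (r + 1))
    Metric.isClosed_closedBall.measurableSet (v := Real.pi * (r + 1) ^ 2) (by positivity) hvol
    (θ := 1) (by norm_num)
  have hmk := mul_meas_ge_le_lintegral₀ (μ := P)
    (f := fun ω => expSup 1 (count X (Metric.closedBall (0 : Plane) (r + 1)) ω))
    ((Measurable.of_discrete (f := expSup 1)).comp (measurable_count hX.measurable
      Metric.isClosed_closedBall.measurableSet)).aemeasurable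
    (ENNReal.ofReal (Real.exp (r ^ 3)))
  rw [hmean] at hmk
  have hsub : {ω | ((scale (k + 1) : ℕ) : ℕ∞) ≤ count X (Metric.closedBall 0 (r + 1)) ω} ⊆
      {ω | ENNReal.ofReal (Real.exp (r ^ 3)) ≤
        expSup 1 (count X (Metric.closedBall (0 : Plane) (r + 1)) ω)} := by
    intro ω hω
    simp only [mem_ofPred_eq] at hω ⊢
    unfold expSup
    refine le_iSup_of_le (scale (k + 1)) (le_iSup_of_le hω ?_)
    rw [h3, one_mul]
  calc P {ω | ((scale (k + 1) : ℕ) : ℕ∞) ≤ count X (Metric.closedBall 0 (r + 1)) ω}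
      ≤ P {ω | ENNReal.ofReal (Real.exp (r ^ 3)) ≤
        expSup 1 (count X (Metric.closedBall (0 : Plane) (r + 1)) ω)} := measure_mono hsub
    _ = ENNReal.ofReal (Real.exp (-(r ^ 3))) * (ENNReal.ofReal (Real.exp (r ^ 3)) *
        P {ω | ENNReal.ofReal (Real.exp (r ^ 3)) ≤
        expSup 1 (count X (Metric.closedBall (0 : Plane) (r + 1)) ω)}) := by
        rw [← mul_assoc, ← ENNReal.ofReal_mul (by positivity), ← Real.exp_add]
        simp
    _ ≤ ENNReal.ofReal (Real.exp (-(r ^ 3))) *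
        ENNReal.ofReal (Real.exp (Real.pi * (r + 1) ^ 2 * (Real.exp 1 - 1))) := by
        gcongr
    _ ≤ ENNReal.ofReal (Real.exp 20000 * Real.exp (-r)) := by
        rw [← ENNReal.ofReal_mul (by positivity), ← Real.exp_add, ← Real.exp_add]
        apply ENNReal.ofReal_le_ofReal
        apply Real.exp_le_exp.mpr
        have he : Real.exp 1 - 1 ≤ 2 := by
          have := Real.exp_one_lt_d9; linarith
        have he0 : 0 ≤ Real.exp 1 - 1 := by
          have := Real.add_one_le_exp (1 : ℝ); linarith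
        have hpi := Real.pi_lt_d2
        have hpi0 := Real.pi_pos
        have h4 : Real.pi * (r + 1) ^ 2 * (Real.exp 1 - 1) ≤ 3.15 * (r + 1) ^ 2 * 2 := by
          gcongr
        have h5 : 3.15 * (r + 1) ^ 2 * 2 ≤ 26 * r ^ 2 := by nlinarith
        have h6 : 26 * r ^ 2 + r - r ^ 3 ≤ 20000 := by
          rcases le_or_gt 27 r with h | h
          · nlinarith [mul_nonneg (by linarith : (0:ℝ) ≤ r - 27) (sq_nonneg r)]
          · have : 0 ≤ r ^ 3 := by positivity
            nlinarith
        linarith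

lemma summable_exp_scale : Summable (fun k => Real.exp (-(scale k : ℝ))) := by
  refine Summable.of_nonneg_of_le (fun k => (Real.exp_pos _).le) (fun k => ?_)
    (summable_geometric_of_lt_one (r := Real.exp (-1)) (Real.exp_pos _).le
      (by rw [Real.exp_lt_one_iff]; norm_num))
  rw [← Real.exp_nat_mul]
  apply Real.exp_le_exp.mpr
  have : ((k + 1 : ℕ) : ℝ) ≤ scale k := by exact_mod_cast le_scale k
  push_cast at this
  linarith

lemma tsum_exp_scale_ne_top (c : ℝ) (hc : 0 ≤ c) :
    ∑' k, ENNReal.ofReal (c * Real.exp (-(scale k : ℝ))) ≠ ∞ := by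
  rw [← ENNReal.ofReal_tsum_of_nonneg (fun k => by positivity) (summable_exp_scale.mul_left c)]
  exact ENNReal.ofReal_ne_top

/-- Almost surely, at infinitely many scales few particles come close to the disc of radius
`scale (k+1)`. -/
lemma frequently_few {X : ℕ → Ω → Plane} {M : ℕ → Ω → ℝ≥0∞} {C : ℝ}
    (h : MarkInput X M C P) :
    ∀ᵐ ω ∂P, ∃ᶠ k in atTop,
      1 + (({i | X i ω ∈ Metric.closedBall 0 ((scale (k + 1) : ℝ) + 1)} ∪
        marked (scale (k + 1)) X M ω).encard : ℝ≥0∞) <
        ENNReal.ofReal Real.pi * ((scale (k + 1) : ℕ) : ℝ≥0∞) ^ 2 := by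
  obtain ⟨K, hK⟩ := marked_tail h
  have h1 := few_frequently h.poisson (C := K + 13) (by positivity)
  have h2 : ∀ᵐ ω ∂P, ∀ᶠ k in atTop,
      ω ∉ {ω | ((scale (k + 1) : ℕ) : ℕ∞) ≤ count X (Metric.closedBall 0 ((scale k : ℝ) + 1)) ω} := by
    apply ae_eventually_notMem
    refine ne_top_of_le_ne_top (tsum_exp_scale_ne_top (Real.exp 20000) (by positivity)) ?_
    exact ENNReal.tsum_le_tsum fun k => inner_tail h.poisson k
  have h3 : ∀ᵐ ω ∂P, ∀ᶠ k in atTop,
      ω ∉ {ω | ((K * scale k : ℕ) : ℕ∞) ≤ (marked (scale k) X M ω).encard} := by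
    apply ae_eventually_notMem
    refine ne_top_of_le_ne_top (tsum_exp_scale_ne_top 1 (by positivity)) ?_
    apply ENNReal.tsum_le_tsum fun k => ?_
    have := hK (scale k) (by have := two_le_scale k; omega)
    simpa using this
  filter_upwards [h1, h2, h3] with ω hω1 hω2 hω3
  have hω3' := (tendsto_add_atTop_nat 1).eventually hω3
  refine (hω1.and_eventually (hω2.and hω3')).mono ?_
  rintro k ⟨hfew, hin, hmk⟩
  simp only [not_le] at hin hmk
  obtain ⟨n, hn, hnle⟩ := hfew
  have hin_ne : count X (Metric.closedBall 0 ((scale k : ℝ) + 1)) ω ≠ ⊤ := ne_top_of_lt hin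
  have hmk_ne : (marked (scale (k + 1)) X M ω).encard ≠ ⊤ := ne_top_of_lt hmk
  obtain ⟨a, ha⟩ := ENat.ne_top_iff_exists.mp hin_ne
  obtain ⟨b, hb⟩ := ENat.ne_top_iff_exists.mp hmk_ne
  rw [← ha] at hin
  rw [← hb] at hmk
  have hin' : a < scale (k + 1) := by exact_mod_cast hin
  have hmk' : b < K * scale (k + 1) := by exact_mod_cast hmk
  have hcard : ({i | X i ω ∈ Metric.closedBall 0 ((scale (k + 1) : ℝ) + 1)} ∪
        marked (scale (k + 1)) X M ω).encard ≤ ((a + n + b : ℕ) : ℕ∞) := by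
    have hsub : {i | X i ω ∈ Metric.closedBall 0 ((scale (k + 1) : ℝ) + 1)} ⊆
        {i | X i ω ∈ Metric.closedBall 0 ((scale k : ℝ) + 1)} ∪ {i | X i ω ∈ shell k} := by
      intro i hi
      by_cases hc : X i ω ∈ Metric.closedBall 0 ((scale k : ℝ) + 1)
      · exact Or.inl hc
      · exact Or.inr ⟨hi, hc⟩
    calc _ ≤ ({i | X i ω ∈ Metric.closedBall 0 ((scale (k + 1) : ℝ) + 1)}).encard +
          (marked (scale (k + 1)) X M ω).encard := encard_union_le _ _
      _ ≤ (({i | X i ω ∈ Metric.closedBall 0 ((scale k : ℝ) + 1)}).encard +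
          ({i | X i ω ∈ shell k}).encard) + (marked (scale (k + 1)) X M ω).encard := by
          gcongr
          exact (encard_le_encard hsub).trans (encard_union_le _ _)
      _ = ((a + n + b : ℕ) : ℕ∞) := by
          have e1 : ({i | X i ω ∈ Metric.closedBall 0 ((scale k : ℝ) + 1)}).encard = a := ha.symm
          have e2 : ({i | X i ω ∈ shell k}).encard = n := hn
          rw [e1, e2, ← hb]
          push_cast
          rfl
  have hreal : (1 : ℝ) + ((a + n + b : ℕ) : ℝ) < Real.pi * (scale (k + 1) : ℝ) ^ 2 := by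
    have e1 := shellArea_le k
    have e2 := shellArea_ge k
    have hs2 : (2 : ℝ) ≤ scale (k + 1) := by exact_mod_cast two_le_scale (k + 1)
    have e3 : (scale (k + 1) : ℝ) ≤ Real.sqrt (shellArea k) := Real.le_sqrt_of_sq_le e2
    have e4 : (a : ℝ) ≤ scale (k + 1) := by exact_mod_cast hin'.le
    have e5 : (b : ℝ) ≤ K * scale (k + 1) := by exact_mod_cast hmk'.le
    have e6 : ((K : ℝ) + 13) * scale (k + 1) ≤ ((K : ℝ) + 13) * Real.sqrt (shellArea k) := by
      gcongr
    push_cast
    nlinarith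
  calc 1 + (({i | X i ω ∈ Metric.closedBall 0 ((scale (k + 1) : ℝ) + 1)} ∪
        marked (scale (k + 1)) X M ω).encard : ℝ≥0∞)
      ≤ 1 + (((a + n + b : ℕ) : ℕ∞) : ℝ≥0∞) := by gcongr
    _ = ENNReal.ofReal (1 + ((a + n + b : ℕ) : ℝ)) := by
        rw [ENNReal.ofReal_add (by norm_num) (by positivity), ENNReal.ofReal_one,
          ENNReal.ofReal_natCast]
        rfl
    _ < ENNReal.ofReal (Real.pi * (scale (k + 1) : ℝ) ^ 2) := by
        have hs2 : (2 : ℝ) ≤ scale (k + 1) := by exact_mod_cast two_le_scale (k + 1)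
        rw [ENNReal.ofReal_lt_ofReal_iff (by positivity)]
        exact hreal
    _ = ENNReal.ofReal Real.pi * ((scale (k + 1) : ℕ) : ℝ≥0∞) ^ 2 := by
        rw [ENNReal.ofReal_mul Real.pi_pos.le, ENNReal.ofReal_pow (by positivity),
          ENNReal.ofReal_natCast]

/-- The marks coming from the Brownian motions. -/
noncomputable def bmark (B : ℕ → ℝ≥0 → Ω → Plane) (T : ℝ≥0) (i : ℕ) (ω : Ω) : ℝ≥0∞ :=
  dyadicSup T (fun t => B i t ω)

lemma markInput_bmark {X : ℕ → Ω → Plane} {B : ℕ → ℝ≥0 → Ω → Plane} (h : IsPoolInput 1 X B P)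
    (T : ℝ≥0) : MarkInput X (bmark B T) (32 * 10 ^ 6 * T ^ 2) P where
  poisson := h.poisson
  meas := fun i => (measurable_dyadicSup T).comp (measurable_pi_lambda _ (h.brownian i).measurable)
  ind := h.indep_brownian.comp (fun _ => dyadicSup T) (fun _ => measurable_dyadicSup T)
  indX := h.indep.comp (φ := id) (ψ := fun (w : ℕ → ℝ≥0 → Plane) (i : ℕ) => dyadicSup T (w i))
    measurable_id (measurable_pi_lambda _ fun i => (measurable_dyadicSup T).comp
      (measurable_pi_apply i))
  C_nonneg := by positivity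
  tail := by
    intro i j hj
    have hj' : (0 : ℝ) < j := by exact_mod_cast hj
    have := planar_tail (h.brownian i) T hj'
    rw [ENNReal.ofReal_natCast] at this
    exact this

omit [MeasurableSpace Ω] in
/-- A visitor of `B(R)` before time `T` starts in `B(R+1)` or is marked. -/
lemma visitors_subset {X : ℕ → Ω → Plane} {B : ℕ → ℝ≥0 → Ω → Plane} {ω : Ω}
    (hcont : ∀ i, Continuous (fun t => B i t ω)) {T : ℝ≥0} (hT : 0 < T) (R : ℕ) :
    visitors (fun i t => X i ω + B i t ω) R T ⊆
      {i | X i ω ∈ Metric.closedBall 0 ((R : ℝ) + 1)} ∪ marked R X (bmark B T) ω := by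
  rintro i ⟨u, hu, hi⟩
  by_cases hc : X i ω ∈ Metric.closedBall 0 ((R : ℝ) + 1)
  · exact Or.inl hc
  · right
    rw [mem_closedBall_zero_iff, not_le] at hc
    have hi' : ‖X i ω + B i u ω‖ ≤ R := by
      have h1 : ‖X i ω + B i u ω‖ₑ ≤ (R : ℝ≥0∞) := hi
      rw [← ofReal_norm, ← ENNReal.ofReal_natCast] at h1
      exact (ENNReal.ofReal_le_ofReal_iff (by positivity)).mp h1
    have htri : ‖X i ω‖ ≤ ‖X i ω + B i u ω‖ + ‖B i u ω‖ := by
      have := norm_sub_le (X i ω + B i u ω) (B i u ω)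
      simpa using this
    have hceil1 : R + 1 < ⌈‖X i ω‖⌉₊ := by
      apply Nat.lt_ceil.mpr
      push_cast
      exact hc
    have hceil2 : (⌈‖X i ω‖⌉₊ : ℝ) < ‖X i ω‖ + 1 := Nat.ceil_lt_add_one (norm_nonneg _)
    have hann : ann R (X i ω) + (R + 1) = ⌈‖X i ω‖⌉₊ := by
      unfold ann
      omega
    constructor
    · unfold ann
      omega
    · have h1 : ((ann R (X i ω) : ℕ) : ℝ) < ‖B i u ω‖ := by
        have : ((ann R (X i ω) : ℕ) : ℝ) + (R + 1) = (⌈‖X i ω‖⌉₊ : ℝ) := by exact_mod_cast hann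
        linarith
      have h2 : ((ann R (X i ω) : ℕ) : ℝ≥0∞) < ‖B i u ω‖ₑ := by
        rw [← ofReal_norm, ← ENNReal.ofReal_natCast]
        exact (ENNReal.ofReal_lt_ofReal_iff_of_nonneg (by positivity)).mpr h1
      exact lt_of_lt_of_le h2 (le_dyadicSup hT (hcont i) hu)

/-- Continuity of the paths. -/
lemma ae_continuous {W : ℝ≥0 → Ω → Plane} (hW : IsPlanarBrownian W P) :
    ∀ᵐ ω ∂P, Continuous (fun t => W t ω) := by
  filter_upwards [(hW.coord 0).cont, (hW.coord 1).cont] with ω h0 h1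
  have : Continuous (fun t => (WithLp.ofLp (W t ω))) := by
    apply continuous_pi
    intro c
    fin_cases c
    · exact h0
    · exact h1
  exact (PiLp.continuous_toLp 2 _).comp this

/-- The deterministic criterion for non-explosion. -/
lemma not_explodes_of_visitors {x : ℕ → ℝ≥0 → Plane} (hx : ∀ i, Continuous (x i))
    (h : ∀ n : ℕ, ∃ᶠ k in atTop, 1 + ((visitors x (scale (k + 1)) ((n : ℝ≥0) + 1)).encard : ℝ≥0∞) <
      ENNReal.ofReal Real.pi * ((scale (k + 1) : ℕ) : ℝ≥0∞) ^ 2) : ¬ Explodes x := by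
  rintro ⟨t, ht⟩
  obtain ⟨n, hn⟩ := exists_nat_ge t
  have htn : t ≤ (n : ℝ≥0) + 1 := hn.trans (by simp)
  obtain ⟨k, hk⟩ := (h n).exists
  obtain ⟨k', hkk', hk'⟩ := ((h (n + 1)).and_eventually (eventually_ge_atTop k)).exists
  -- finiteness
  have hfin : (visitors x (scale (k + 1)) ((n : ℝ≥0) + 1 + 1)).Finite := by
    have hfin' : (visitors x (scale (k' + 1)) (((n + 1 : ℕ) : ℝ≥0) + 1)).Finite := by
      rw [← Set.encard_ne_top_iff]
      intro htop
      rw [htop] at hkk'
      simp at hkk'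
    apply hfin'.subset
    apply visitors_mono
    · have : scale (k + 1) ≤ scale (k' + 1) := scale_strictMono.monotone (by omega)
      exact_mod_cast this
    · push_cast; exact le_rfl
  have hbar := barrier hx hfin hk
  have hle : poolRadius x t ≤ (scale (k + 1) : ℕ) := by
    unfold poolRadius
    refine iSup_le fun j => iSup_le fun hj => ?_
    exact (hbar j (hj.trans (by exact_mod_cast htn))).1
  rw [ht] at hle
  simp at hle

/-- **Non-explosion of the critical Brownian Pool model.** -/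
theorem ae_not_explodes {X : ℕ → Ω → Plane} {B : ℕ → ℝ≥0 → Ω → Plane} (h : IsPoolInput 1 X B P) :
    ∀ᵐ ω ∂P, ¬ Explodes (fun i t => X i ω + B i t ω) := by
  have hcont : ∀ᵐ ω ∂P, ∀ i, Continuous (fun t => B i t ω) :=
    ae_all_iff.mpr fun i => ae_continuous (h.brownian i)
  have hfreq : ∀ᵐ ω ∂P, ∀ n : ℕ, ∃ᶠ k in atTop,
      1 + (({i | X i ω ∈ Metric.closedBall 0 ((scale (k + 1) : ℝ) + 1)} ∪
        marked (scale (k + 1)) X (bmark B ((n : ℝ≥0) + 1)) ω).encard : ℝ≥0∞) <
        ENNReal.ofReal Real.pi * ((scale (k + 1) : ℕ) : ℝ≥0∞) ^ 2 :=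
    ae_all_iff.mpr fun n => frequently_few (markInput_bmark h ((n : ℝ≥0) + 1))
  filter_upwards [hcont, hfreq] with ω h1 h2
  apply not_explodes_of_visitors
  · intro i
    exact continuous_const.add (h1 i)
  · intro n
    refine (h2 n).mono fun k hk => lt_of_le_of_lt ?_ hk
    gcongr
    exact visitors_subset h1 (by positivity) _

end Pool.Agent.H40.BPool
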