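import Pool.Agent.H40.BPool.PoissonTail

open MeasureTheory ProbabilityTheory Set
open scoped ENNReal NNReal Nat

namespace Pool.Agent.H40.BPool

variable {Ω : Type*} [MeasurableSpace Ω] {P : Measure Ω}

lemma nat_le_encard_iff (S : Set ℕ) (n : ℕ) :
    (n : ℕ∞) ≤ S.encard ↔ ∃ s : Finset ℕ, s.card = n ∧ ∀ i ∈ s, i ∈ S := by
  constructor
  · intro h
    obtain ⟨t, ht, hcard⟩ := Set.exists_subset_encard_eq h
    have hfin : t.Finite := by
      rw [← Set.encard_ne_top_iff, hcard]
      exact ENat.natCast_ne_top n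
    refine ⟨hfin.toFinset, ?_, ?_⟩
    · rw [hfin.encard_eq_coe_toFinset_card] at hcard
      exact_mod_cast hcard
    · intro i hi
      exact ht (by simpa using hi)
  · rintro ⟨s, hs, hsub⟩
    rw [← hs, ← Set.encard_coe_eq_coe_finsetCard]
    exact Set.encard_le_encard (fun i hi => hsub i (by simpa using hi))

lemma measurableSet_le_count {X : ℕ → Ω → Plane} (hX : ∀ i, Measurable (X i)) {A : Set Plane}
    (hA : MeasurableSet A) (n : ℕ) : MeasurableSet {ω | (n : ℕ∞) ≤ count X A ω} := by
  have : {ω | (n : ℕ∞) ≤ count X A ω} =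
      ⋃ s : {s : Finset ℕ // s.card = n}, ⋂ i ∈ s.1, (X i) ⁻¹' A := by
    ext ω
    simp only [count, mem_ofPred_eq, nat_le_encard_iff, mem_iUnion, mem_iInter, mem_preimage,
      Subtype.exists, exists_prop]
  rw [this]
  refine MeasurableSet.iUnion fun s => ?_
  refine Finset.measurableSet_biInter _ fun i _ => hX i hA

lemma measurable_count {X : ℕ → Ω → Plane} (hX : ∀ i, Measurable (X i)) {A : Set Plane}
    (hA : MeasurableSet A) : Measurable (count X A) := by
  apply measurable_to_countable'
  intro c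
  induction c using ENat.recTopCoe with
  | top =>
    have : count X A ⁻¹' {⊤} = ⋂ n : ℕ, {ω | (n : ℕ∞) ≤ count X A ω} := by
      ext ω
      simp only [mem_preimage, mem_singleton_iff, mem_iInter, mem_ofPred_eq]
      constructor
      · intro h n; rw [h]; exact le_top
      · intro h
        by_contra hne
        obtain ⟨m, hm⟩ := ENat.ne_top_iff_exists.mp hne
        have := h (m + 1)
        rw [← hm] at this
        have h2 : m + 1 ≤ m := by exact_mod_cast this
        omega
    rw [this]
    exact MeasurableSet.iInter fun n => measurableSet_le_count hX hA n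
  | coe n =>
    have : count X A ⁻¹' {(n : ℕ∞)} =
        {ω | (n : ℕ∞) ≤ count X A ω} \ {ω | ((n + 1 : ℕ) : ℕ∞) ≤ count X A ω} := by
      ext ω
      simp only [mem_preimage, mem_singleton_iff, mem_sdiff, mem_ofPred_eq, not_le]
      constructor
      · intro h
        rw [h]
        exact ⟨le_rfl, by exact_mod_cast Nat.lt_succ_self n⟩
      · rintro ⟨h1, h2⟩
        have hne : count X A ω ≠ ⊤ := ne_top_of_lt h2
        obtain ⟨m, hm⟩ := ENat.ne_top_iff_exists.mp hne
        rw [← hm] at h1 h2 ⊢
        have h3 : n ≤ m := by exact_mod_cast h1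
        have h4 : m < n + 1 := by exact_mod_cast h2
        have : m = n := by omega
        rw [this]
    rw [this]
    exact MeasurableSet.diff (measurableSet_le_count hX hA n) (measurableSet_le_count hX hA (n + 1))

/-- index of the annulus `{R + j < ‖x‖ ≤ R + j + 1}` containing `x` (0 if `‖x‖ ≤ R + 1`). -/
noncomputable def ann (R : ℕ) (x : Plane) : ℕ := ⌈‖x‖⌉₊ - (R + 1)

lemma measurable_ann (R : ℕ) : Measurable (ann R) := by
  unfold ann
  exact (Measurable.of_discrete (f := fun n : ℕ => n - (R + 1))).comp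
    (Nat.measurable_ceil.comp measurable_norm)

lemma ann_preimage (R j : ℕ) (hj : 1 ≤ j) :
    {x : Plane | ann R x = j} = Metric.closedBall 0 (R + j + 1) \ Metric.closedBall 0 (R + j) := by
  ext x
  simp only [ann, mem_ofPred_eq, mem_sdiff, mem_closedBall_zero_iff, not_le]
  constructor
  · intro h
    have h1 : ⌈‖x‖⌉₊ = R + j + 1 := by omega
    constructor
    · have := Nat.le_ceil ‖x‖
      rw [h1] at this
      push_cast at this
      exact this
    · have : R + j < ⌈‖x‖⌉₊ := by omega
      have := Nat.lt_ceil.mp this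
      push_cast at this
      exact this
  · rintro ⟨h1, h2⟩
    have h3 : ⌈‖x‖⌉₊ ≤ R + j + 1 := by
      apply Nat.ceil_le.mpr
      push_cast
      exact h1
    have h4 : R + j < ⌈‖x‖⌉₊ := by
      apply Nat.lt_ceil.mpr
      push_cast
      exact h2
    omega

lemma volume_annulus {a b : ℝ} (ha : 0 ≤ a) (hab : a ≤ b) :
    volume (Metric.closedBall (0 : Plane) b \ Metric.closedBall 0 a) =
      ENNReal.ofReal (Real.pi * (b ^ 2 - a ^ 2)) := by
  rw [measure_sdiff (Metric.closedBall_subset_closedBall hab)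
    Metric.isClosed_closedBall.measurableSet.nullMeasurableSet]
  · rw [EuclideanSpace.volume_closedBall_fin_two, EuclideanSpace.volume_closedBall_fin_two,
      ← ENNReal.ofReal_pow (by linarith), ← ENNReal.ofReal_pow ha,
      ← ENNReal.ofReal_mul (by positivity), ← ENNReal.ofReal_mul (by positivity),
      ← ENNReal.ofReal_sub _ (by positivity)]
    congr 1
    ring
  · rw [EuclideanSpace.volume_closedBall_fin_two]
    exact ENNReal.mul_ne_top (by simp) (by simp)

lemma volume_ann (R j : ℕ) (hj : 1 ≤ j) :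
    volume {x : Plane | ann R x = j} = ENNReal.ofReal (Real.pi * (2 * R + 2 * j + 1)) := by
  rw [ann_preimage R j hj, volume_annulus (by positivity) (by linarith)]
  congr 1
  ring

/-- growth function used in the exponential moment -/
noncomputable def expSup (θ : ℝ) (c : ℕ∞) : ℝ≥0∞ :=
  ⨆ m : ℕ, ⨆ _ : (m : ℕ∞) ≤ c, ENNReal.ofReal (Real.exp (θ * m))

lemma expSup_coe {θ : ℝ} (hθ : 0 ≤ θ) (n : ℕ) : expSup θ n = ENNReal.ofReal (Real.exp (θ * n)) := by
  unfold expSup
  apply le_antisymm
  · apply iSup_le; intro m; apply iSup_le; intro hm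
    apply ENNReal.ofReal_le_ofReal
    apply Real.exp_le_exp.mpr
    have : m ≤ n := by exact_mod_cast hm
    gcongr
  · exact le_iSup_of_le n (le_iSup_of_le le_rfl le_rfl)

/-- exponential moment of a count -/
lemma lintegral_expSup_count {X : ℕ → Ω → Plane} (hX : IsPoissonPointProcess 1 X P)
    {A : Set Plane} (hA : MeasurableSet A) {v : ℝ} (hv : 0 ≤ v) (hvol : volume A = ENNReal.ofReal v)
    {θ : ℝ} (hθ : 0 ≤ θ) :
    ∫⁻ ω, expSup θ (count X A ω) ∂P = ENNReal.ofReal (Real.exp (v * (Real.exp θ - 1))) := by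
  have hlaw := hX.hasLaw A hA (by rw [hvol]; exact ENNReal.ofReal_ne_top)
  rw [hvol] at hlaw
  have h1 : ∫⁻ ω, expSup θ (count X A ω) ∂P = ∫⁻ c, expSup θ c ∂(P.map (count X A)) := by
    rw [lintegral_map' (by exact Measurable.of_discrete.aemeasurable) hlaw.aemeasurable]
  rw [h1, hlaw.map_eq, lintegral_map (Measurable.of_discrete) (Measurable.of_discrete)]
  have h2 : ∀ a : ℕ, expSup θ ((Nat.cast : ℕ → ℕ∞) a) = ENNReal.ofReal (Real.exp (θ * a)) :=
    fun a => expSup_coe hθ a
  rw [lintegral_congr h2, lintegral_exp_poisson]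
  congr 3
  rw [one_mul]
  exact ENNReal.toReal_ofReal hv

/-- The set of the marked particles: outside `B(R+1)`, with a mark exceeding the distance to
`B(R)`. -/
def marked (R : ℕ) (X : ℕ → Ω → Plane) (M : ℕ → Ω → ℝ≥0∞) (ω : Ω) : Set ℕ :=
  {i | 1 ≤ ann R (X i ω) ∧ ((ann R (X i ω) : ℕ) : ℝ≥0∞) < M i ω}

open Classical in
/-- number of the marked particles with index `< n` and annulus `≤ n` -/
noncomputable def markedCount (R n : ℕ) (X : ℕ → Ω → Plane) (M : ℕ → Ω → ℝ≥0∞) (ω : Ω) : ℕ :=
  ((Finset.range n).filter (fun i => i ∈ marked R X M ω ∧ ann R (X i ω) ≤ n)).card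

open Classical in
/-- one factor of the exponential moment -/
noncomputable def hfac (n j : ℕ) (m : ℝ≥0∞) : ℝ≥0∞ :=
  if 1 ≤ j ∧ j ≤ n ∧ (j : ℝ≥0∞) < m then ENNReal.ofReal (Real.exp 1) else 1

lemma measurable_hfac (n j : ℕ) : Measurable (hfac n j) := by
  unfold hfac
  apply Measurable.ite
  · by_cases h : 1 ≤ j ∧ j ≤ n
    · simp only [h, true_and]
      exact measurableSet_Ioi
    · have : {a : ℝ≥0∞ | 1 ≤ j ∧ j ≤ n ∧ (j : ℝ≥0∞) < a} = ∅ := by
        ext a
        simp only [mem_ofPred_eq, mem_empty_iff_false, iff_false]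
        tauto
      rw [this]
      exact MeasurableSet.empty
  · exact measurable_const
  · exact measurable_const

omit [MeasurableSpace Ω] in
lemma exp_markedCount (R n : ℕ) (X : ℕ → Ω → Plane) (M : ℕ → Ω → ℝ≥0∞) (ω : Ω) :
    ENNReal.ofReal (Real.exp (markedCount R n X M ω)) =
      ∏ i ∈ Finset.range n, hfac n (ann R (X i ω)) (M i ω) := by
  classical
  have h1 : ∀ i, hfac n (ann R (X i ω)) (M i ω) =
      if i ∈ marked R X M ω ∧ ann R (X i ω) ≤ n then ENNReal.ofReal (Real.exp 1) else 1 := by
    intro i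
    unfold hfac marked
    simp only [mem_ofPred_eq]
    congr 1
    apply propext
    tauto
  simp_rw [h1]
  rw [Finset.prod_ite, Finset.prod_const, Finset.prod_const_one, mul_one]
  unfold markedCount
  rw [← ENNReal.ofReal_pow (by positivity), ← Real.exp_nat_mul, mul_one]

/-- Standing assumptions for the marks. -/
structure MarkInput (X : ℕ → Ω → Plane) (M : ℕ → Ω → ℝ≥0∞) (C : ℝ) (P : Measure Ω) : Prop where
  poisson : IsPoissonPointProcess 1 X P
  meas : ∀ i, Measurable (M i)
  ind : iIndepFun M P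
  indX : IndepFun (fun ω (i : ℕ) => X i ω) (fun ω (i : ℕ) => M i ω) P
  C_nonneg : 0 ≤ C
  tail : ∀ i (j : ℕ), 1 ≤ j → P {ω | (j : ℝ≥0∞) < M i ω} ≤ ENNReal.ofReal (C / j ^ 4)

/-- bound on the tail of the marks, at most one -/
noncomputable def pj (C : ℝ) (j : ℕ) : ℝ := min 1 (C / j ^ 4)

lemma pj_nonneg {C : ℝ} (hC : 0 ≤ C) (j : ℕ) : 0 ≤ pj C j := by
  unfold pj; positivity

lemma pj_le_one (C : ℝ) (j : ℕ) : pj C j ≤ 1 := min_le_left _ _

lemma lintegral_hfac_le {X : ℕ → Ω → Plane} {M : ℕ → Ω → ℝ≥0∞} {C : ℝ}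
    (h : MarkInput X M C P) (n j i : ℕ) :
    ∫⁻ ω, hfac n j (M i ω) ∂P ≤
      if 1 ≤ j ∧ j ≤ n then ENNReal.ofReal (Real.exp (2 * pj C j)) else 1 := by
  have hP : IsProbabilityMeasure P := h.ind.isProbabilityMeasure
  split_ifs with hj
  · have hp : P {ω | (j : ℝ≥0∞) < M i ω} ≤ ENNReal.ofReal (pj C j) := by
      unfold pj
      rw [ENNReal.ofReal_min]
      apply le_min
      · rw [ENNReal.ofReal_one]; exact prob_le_one
      · exact h.tail i j hj.1
    have hmeas : MeasurableSet {ω | (j : ℝ≥0∞) < M i ω} :=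
      measurableSet_lt measurable_const (h.meas i)
    have he : (0 : ℝ) ≤ Real.exp 1 - 1 := by
      have := Real.add_one_le_exp (1 : ℝ); linarith
    have hfe : ∀ ω, hfac n j (M i ω) = 1 + ENNReal.ofReal (Real.exp 1 - 1) *
        {ω | (j : ℝ≥0∞) < M i ω}.indicator 1 ω := by
      intro ω
      unfold hfac
      by_cases hω : (j : ℝ≥0∞) < M i ω
      · rw [if_pos ⟨hj.1, hj.2, hω⟩, indicator_of_mem (by exact hω)]
        simp only [Pi.one_apply, mul_one]
        rw [← ENNReal.ofReal_one, ← ENNReal.ofReal_add (by norm_num) he]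
        congr 1
        ring
      · rw [if_neg (by tauto), indicator_of_notMem (by exact hω)]
        simp
    simp_rw [hfe]
    rw [lintegral_add_left measurable_const, lintegral_const_mul _
      (measurable_one.indicator hmeas), lintegral_indicator_one hmeas]
    simp only [lintegral_const, measure_univ, mul_one]
    calc 1 + ENNReal.ofReal (Real.exp 1 - 1) * P {ω | (j : ℝ≥0∞) < M i ω}
        ≤ 1 + ENNReal.ofReal (Real.exp 1 - 1) * ENNReal.ofReal (pj C j) := by gcongr
      _ = ENNReal.ofReal (1 + (Real.exp 1 - 1) * pj C j) := by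
          rw [← ENNReal.ofReal_mul he, ENNReal.ofReal_add (by norm_num)
            (mul_nonneg he (pj_nonneg h.C_nonneg j)), ENNReal.ofReal_one]
      _ ≤ ENNReal.ofReal (Real.exp (2 * pj C j)) := by
          apply ENNReal.ofReal_le_ofReal
          have h1 : 1 + 2 * pj C j ≤ Real.exp (2 * pj C j) := by
            have := Real.add_one_le_exp (2 * pj C j); linarith
          have h2 : Real.exp 1 - 1 ≤ 2 := by
            have := Real.exp_one_lt_d9; linarith
          have h3 := pj_nonneg h.C_nonneg j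
          nlinarith
  · have hfe : ∀ ω, hfac n j (M i ω) = 1 := by
      intro ω
      unfold hfac
      rw [if_neg (by tauto)]
    simp_rw [hfe]
    simp

open Classical in
/-- the product of the bounds is controlled by the counts in the annuli -/
lemma prod_bound_le (C : ℝ) (_hC : 0 ≤ C) (R n : ℕ) (x : ℕ → Plane) :
    ∏ i ∈ Finset.range n, (if 1 ≤ ann R (x i) ∧ ann R (x i) ≤ n then
      ENNReal.ofReal (Real.exp (2 * pj C (ann R (x i)))) else 1) ≤
    ∏ j ∈ Finset.range n, expSup (2 * pj C (j + 1)) ({i | ann R (x i) = j + 1} : Set ℕ).encard := by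
  have h1 : ∀ i, (if 1 ≤ ann R (x i) ∧ ann R (x i) ≤ n then
      ENNReal.ofReal (Real.exp (2 * pj C (ann R (x i)))) else 1) =
      ∏ j ∈ Finset.range n, (if ann R (x i) = j + 1 then
        ENNReal.ofReal (Real.exp (2 * pj C (j + 1))) else 1) := by
    intro i
    split_ifs with hi
    · have hmem : ann R (x i) - 1 ∈ Finset.range n := by
        rw [Finset.mem_range]; omega
      rw [Finset.prod_eq_single (ann R (x i) - 1)]
      · have : ann R (x i) - 1 + 1 = ann R (x i) := by omega
        rw [this, if_pos rfl]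
      · intro b _ hb
        rw [if_neg (by omega)]
      · intro hcon
        exact absurd hmem hcon
    · symm
      apply Finset.prod_eq_one
      intro j hj
      rw [Finset.mem_range] at hj
      rw [if_neg (by omega)]
  simp_rw [h1]
  rw [Finset.prod_comm]
  apply Finset.prod_le_prod' 
  intro j _
  rw [Finset.prod_ite, Finset.prod_const, Finset.prod_const_one, mul_one,
    ← ENNReal.ofReal_pow (by positivity), ← Real.exp_nat_mul]
  unfold expSup
  refine le_iSup_of_le ((Finset.range n).filter (fun i => ann R (x i) = j + 1)).card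
    (le_iSup_of_le ?_ ?_)
  · rw [← Set.encard_coe_eq_coe_finsetCard]
    apply Set.encard_le_encard
    intro i hi
    simp only [Finset.coe_filter, mem_ofPred_eq] at hi
    exact hi.2
  · rw [mul_comm (2 * pj C (j + 1))]

/-- Exponential moment of the number of marked particles. -/
lemma lintegral_exp_markedCount_le {X : ℕ → Ω → Plane} {M : ℕ → Ω → ℝ≥0∞} {C : ℝ}
    (h : MarkInput X M C P) (R n : ℕ) :
    ∫⁻ ω, ENNReal.ofReal (Real.exp (markedCount R n X M ω)) ∂P ≤
      ENNReal.ofReal (Real.exp (∑ j ∈ Finset.range n, Real.pi * (2 * R + 2 * (j + 1 : ℕ) + 1) *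
        (Real.exp (2 * pj C (j + 1)) - 1))) := by
  have hP : IsProbabilityMeasure P := h.ind.isProbabilityMeasure
  have hXm : Measurable (fun ω (i : ℕ) => X i ω) := measurable_pi_lambda _ h.poisson.measurable
  have hMm : Measurable (fun ω (i : ℕ) => M i ω) := measurable_pi_lambda _ h.meas
  -- the joint law is a product
  have hprod := (indepFun_iff_map_prod_eq_prod_map_map hXm.aemeasurable hMm.aemeasurable).mp h.indX
  set F : (ℕ → Plane) × (ℕ → ℝ≥0∞) → ℝ≥0∞ := fun z =>
    ∏ i ∈ Finset.range n, hfac n (ann R (z.1 i)) (z.2 i) with hF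
  have hFm : Measurable F := by
    apply Finset.measurable_prod
    intro i _
    have h2 : Measurable (fun q : ℕ × ℝ≥0∞ => hfac n q.1 q.2) :=
      measurable_from_prod_countable_right (fun j => measurable_hfac n j)
    exact h2.comp (((measurable_ann R).comp ((measurable_pi_apply i).comp measurable_fst)).prodMk
      ((measurable_pi_apply i).comp measurable_snd))
  have e1 : ∫⁻ ω, ENNReal.ofReal (Real.exp (markedCount R n X M ω)) ∂P =
      ∫⁻ z, F z ∂(P.map (fun ω => ((fun i => X i ω), (fun i => M i ω)))) := by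
    rw [lintegral_map hFm (hXm.prodMk hMm)]
    apply lintegral_congr
    intro ω
    rw [exp_markedCount]
  rw [e1, hprod, lintegral_prod _ hFm.aemeasurable]
  have hinner : ∀ x : ℕ → Plane, ∫⁻ m, F (x, m) ∂(P.map (fun ω (i : ℕ) => M i ω)) ≤
      ∏ j ∈ Finset.range n, expSup (2 * pj C (j + 1))
        ({i | ann R (x i) = j + 1} : Set ℕ).encard := by
    intro x
    have e3 : ∫⁻ m, F (x, m) ∂(P.map (fun ω (i : ℕ) => M i ω)) =
        ∫⁻ ω, F (x, fun i => M i ω) ∂P :=
      lintegral_map (f := fun m => F (x, m)) (hFm.comp measurable_prodMk_left) hMm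
    rw [e3]
    simp only [hF]
    have hind : iIndepFun (fun i ω => hfac n (ann R (x i)) (M i ω)) P :=
      h.ind.comp (fun i => hfac n (ann R (x i))) (fun i => measurable_hfac _ _)
    rw [lintegral_prod_eq_prod_lintegral_of_indepFun (Finset.range n)
      (fun i ω => hfac n (ann R (x i)) (M i ω)) hind
      (fun i => (measurable_hfac _ _).comp (h.meas i))]
    refine le_trans ?_ (prod_bound_le C h.C_nonneg R n x)
    apply Finset.prod_le_prod'
    intro i _
    exact lintegral_hfac_le h n (ann R (x i)) i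
  calc ∫⁻ x, ∫⁻ m, F (x, m) ∂(P.map (fun ω (i : ℕ) => M i ω)) ∂(P.map (fun ω (i : ℕ) => X i ω))
      ≤ ∫⁻ x, ∏ j ∈ Finset.range n, expSup (2 * pj C (j + 1))
        ({i | ann R (x i) = j + 1} : Set ℕ).encard ∂(P.map (fun ω (i : ℕ) => X i ω)) :=
        lintegral_mono hinner
    _ ≤ ∫⁻ ω, ∏ j ∈ Finset.range n, expSup (2 * pj C (j + 1))
        (count X {x | ann R x = j + 1} ω) ∂P := by
        refine le_trans (lintegral_map_le _ _) (le_of_eq ?_)
        rfl
    _ = ∏ j ∈ Finset.range n, ∫⁻ ω, expSup (2 * pj C (j + 1))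
        (count X {x | ann R x = j + 1} ω) ∂P := by
        have hAm : ∀ j : ℕ, MeasurableSet {x : Plane | ann R x = j + 1} := fun j =>
          measurable_ann R (measurableSet_singleton (j + 1))
        have hind := h.poisson.indep n (fun j => {x | ann R x = j + 1}) (fun j => hAm j)
          (fun j => by
            have := volume_ann R (j + 1) (by omega)
            rw [this]
            exact ENNReal.ofReal_ne_top) (by
            intro j k hjk
            rw [Set.disjoint_left]
            intro x hx hx'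
            simp only [mem_ofPred_eq] at hx hx'
            apply hjk
            ext
            omega)
        have hind2 : iIndepFun (fun (j : Fin n) ω => expSup (2 * pj C (j + 1))
            (count X {x | ann R x = j + 1} ω)) P :=
          hind.comp (fun j => expSup (2 * pj C (j + 1))) (fun j => Measurable.of_discrete)
        have := lintegral_prod_eq_prod_lintegral_of_indepFun Finset.univ _ hind2
          (fun j => (Measurable.of_discrete (f := expSup (2 * pj C (j + 1)))).comp
            (measurable_count h.poisson.measurable (hAm j)))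
        rw [Finset.prod_range (fun j => ∫⁻ ω, expSup (2 * pj C (j + 1))
          (count X {x | ann R x = j + 1} ω) ∂P), ← this]
        apply lintegral_congr
        intro ω
        rw [Finset.prod_range (fun j => expSup (2 * pj C (j + 1))
          (count X {x | ann R x = j + 1} ω))]
    _ = ∏ j ∈ Finset.range n, ENNReal.ofReal (Real.exp (Real.pi * (2 * R + 2 * (j + 1 : ℕ) + 1) *
        (Real.exp (2 * pj C (j + 1)) - 1))) := by
        apply Finset.prod_congr rfl
        intro j _
        exact lintegral_expSup_count h.poisson (measurable_ann R (measurableSet_singleton (j + 1)))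
          (by positivity) (volume_ann R (j + 1) (by omega))
          (mul_nonneg (by norm_num) (pj_nonneg h.C_nonneg _))
    _ = ENNReal.ofReal (Real.exp (∑ j ∈ Finset.range n, Real.pi * (2 * R + 2 * (j + 1 : ℕ) + 1) *
        (Real.exp (2 * pj C (j + 1)) - 1))) := by
        rw [Real.exp_sum, ENNReal.ofReal_prod_of_nonneg (fun _ _ => by positivity)]

lemma exponent_bound (C : ℝ) (hC : 0 ≤ C) :
    ∃ K : ℝ, 0 ≤ K ∧ ∀ R n : ℕ, 1 ≤ R →
      ∑ j ∈ Finset.range n, Real.pi * (2 * R + 2 * (j + 1 : ℕ) + 1) *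
        (Real.exp (2 * pj C (j + 1)) - 1) ≤ K * R := by
  have hsum : Summable (fun j : ℕ => 1 / ((j : ℝ) + 1) ^ 2) := by
    have := (summable_nat_add_iff 1).mpr (Real.summable_one_div_nat_pow.mpr (by norm_num : 1 < 2))
    refine this.congr fun j => ?_
    push_cast
    rfl
  set S : ℝ := ∑' j : ℕ, 1 / ((j : ℝ) + 1) ^ 2 with hS
  refine ⟨10 * Real.pi * Real.exp 2 * C * S, ?_, ?_⟩
  · have : 0 ≤ S := tsum_nonneg fun j => by positivity
    positivity
  intro R n hR
  have hR' : (1 : ℝ) ≤ R := by exact_mod_cast hR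
  have hterm : ∀ j ∈ Finset.range n, Real.pi * (2 * R + 2 * (j + 1 : ℕ) + 1) *
        (Real.exp (2 * pj C (j + 1)) - 1) ≤
        10 * Real.pi * Real.exp 2 * C * R * (1 / ((j : ℝ) + 1) ^ 2) := by
    intro j _
    have hj : (1 : ℝ) ≤ (j : ℝ) + 1 := by
      have : (0 : ℝ) ≤ j := by positivity
      linarith
    have hp0 := pj_nonneg hC (j + 1)
    have hp1 := pj_le_one C (j + 1)
    have hp2 : pj C (j + 1) ≤ C / ((j : ℝ) + 1) ^ 4 := by
      have : pj C (j + 1) ≤ C / ((j + 1 : ℕ) : ℝ) ^ 4 := min_le_right _ _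
      push_cast at this
      exact this
    have he : Real.exp (2 * pj C (j + 1)) - 1 ≤ 2 * pj C (j + 1) * Real.exp 2 := by
      have h1 := Real.add_one_le_exp (-(2 * pj C (j + 1)))
      have h2 : Real.exp (-(2 * pj C (j + 1))) * Real.exp (2 * pj C (j + 1)) = 1 := by
        rw [← Real.exp_add]; simp
      have h3 : 0 < Real.exp (2 * pj C (j + 1)) := Real.exp_pos _
      have h4 : (-(2 * pj C (j + 1)) + 1) * Real.exp (2 * pj C (j + 1)) ≤ 1 := by
        calc (-(2 * pj C (j + 1)) + 1) * Real.exp (2 * pj C (j + 1))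
            ≤ Real.exp (-(2 * pj C (j + 1))) * Real.exp (2 * pj C (j + 1)) := by gcongr
          _ = 1 := h2
      have h5 : Real.exp (2 * pj C (j + 1)) ≤ Real.exp 2 := by
        apply Real.exp_le_exp.mpr; linarith
      nlinarith
    have hlin : (2 * (R : ℝ) + 2 * ((j : ℝ) + 1) + 1) ≤ 5 * ((j : ℝ) + 1) * R := by
      nlinarith
    push_cast
    calc Real.pi * (2 * R + 2 * ((j : ℝ) + 1) + 1) * (Real.exp (2 * pj C (j + 1)) - 1)
        ≤ Real.pi * (5 * ((j : ℝ) + 1) * R) * (2 * pj C (j + 1) * Real.exp 2) := by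
          apply mul_le_mul _ he _ (by positivity)
          · gcongr
          · have := Real.add_one_le_exp (2 * pj C (j + 1))
            linarith
      _ ≤ Real.pi * (5 * ((j : ℝ) + 1) * R) * (2 * (C / ((j : ℝ) + 1) ^ 4) * Real.exp 2) := by
          gcongr
      _ = 10 * Real.pi * Real.exp 2 * C * R * (1 / ((j : ℝ) + 1) ^ 3) := by
          field_simp
          ring
      _ ≤ 10 * Real.pi * Real.exp 2 * C * R * (1 / ((j : ℝ) + 1) ^ 2) := by
          apply mul_le_mul_of_nonneg_left _ (by positivity)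
          apply one_div_le_one_div_of_le (by positivity)
          nlinarith [pow_pos (by linarith : (0:ℝ) < (j : ℝ) + 1) 2]
  calc _ ≤ ∑ j ∈ Finset.range n, 10 * Real.pi * Real.exp 2 * C * R * (1 / ((j : ℝ) + 1) ^ 2) :=
        Finset.sum_le_sum hterm
    _ = 10 * Real.pi * Real.exp 2 * C * R * ∑ j ∈ Finset.range n, (1 / ((j : ℝ) + 1) ^ 2) := by
        rw [Finset.mul_sum]
    _ ≤ 10 * Real.pi * Real.exp 2 * C * R * S := by
        apply mul_le_mul_of_nonneg_left _ (by positivity)
        exact hsum.sum_le_tsum _ (fun j _ => by positivity)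
    _ = 10 * Real.pi * Real.exp 2 * C * S * R := by ring

open Classical in
omit [MeasurableSpace Ω] in
lemma markedCount_mono (R : ℕ) (X : ℕ → Ω → Plane) (M : ℕ → Ω → ℝ≥0∞) (ω : Ω) :
    Monotone (fun n => markedCount R n X M ω) := by
  intro n m hnm
  unfold markedCount
  apply Finset.card_le_card
  intro i hi
  simp only [Finset.mem_filter, Finset.mem_range] at hi ⊢
  exact ⟨by omega, hi.2.1, by omega⟩

open Classical in
omit [MeasurableSpace Ω] in
lemma exists_markedCount {R : ℕ} {X : ℕ → Ω → Plane} {M : ℕ → Ω → ℝ≥0∞} {ω : Ω} {m : ℕ}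
    (h : (m : ℕ∞) ≤ (marked R X M ω).encard) : ∃ n, m ≤ markedCount R n X M ω := by
  obtain ⟨s, hs, hsub⟩ := (nat_le_encard_iff _ _).mp h
  refine ⟨(s.sup id + 1) + s.sup (fun i => ann R (X i ω)), ?_⟩
  rw [← hs]
  unfold markedCount
  apply Finset.card_le_card
  intro i hi
  simp only [Finset.mem_filter, Finset.mem_range]
  have h1 : i ≤ s.sup id := Finset.le_sup (f := id) hi
  have h2 : ann R (X i ω) ≤ s.sup (fun i => ann R (X i ω)) :=
    Finset.le_sup (f := fun i => ann R (X i ω)) hi
  exact ⟨by omega, hsub i hi, by omega⟩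

/-- Tail bound for the number of marked particles. -/
lemma marked_tail {X : ℕ → Ω → Plane} {M : ℕ → Ω → ℝ≥0∞} {C : ℝ}
    (h : MarkInput X M C P) :
    ∃ K : ℕ, ∀ R : ℕ, 1 ≤ R →
      P {ω | ((K * R : ℕ) : ℕ∞) ≤ (marked R X M ω).encard} ≤ ENNReal.ofReal (Real.exp (-R)) := by
  obtain ⟨K0, hK0, hK⟩ := exponent_bound C h.C_nonneg
  refine ⟨⌈K0⌉₊ + 1, ?_⟩
  intro R hR
  set K : ℕ := ⌈K0⌉₊ + 1 with hKdef
  have hKK : K0 + 1 ≤ (K : ℝ) := by
    rw [hKdef]; push_cast
    have := Nat.le_ceil K0
    linarith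
  have hone : ∀ n, P {ω | K * R ≤ markedCount R n X M ω} ≤ ENNReal.ofReal (Real.exp (-R)) := by
    intro n
    have hsub : {ω | K * R ≤ markedCount R n X M ω} ⊆
        {ω | ENNReal.ofReal (Real.exp (K * R)) ≤ ENNReal.ofReal (Real.exp (markedCount R n X M ω))} := by
      intro ω hω
      simp only [mem_ofPred_eq] at hω ⊢
      apply ENNReal.ofReal_le_ofReal
      apply Real.exp_le_exp.mpr
      exact_mod_cast hω
    have hne : ENNReal.ofReal (Real.exp (K * R)) ≠ 0 := by
      simp [Real.exp_pos]
    have hmk := mul_meas_ge_le_lintegral₀ (μ := P)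
      (f := fun ω => ENNReal.ofReal (Real.exp (markedCount R n X M ω))) (by
        have : (fun ω => ENNReal.ofReal (Real.exp (markedCount R n X M ω))) =
            fun ω => ∏ i ∈ Finset.range n, hfac n (ann R (X i ω)) (M i ω) := by
          funext ω
          rw [exp_markedCount]
        rw [this]
        apply Measurable.aemeasurable
        apply Finset.measurable_prod
        intro i _
        have h2 : Measurable (fun q : ℕ × ℝ≥0∞ => hfac n q.1 q.2) :=
          measurable_from_prod_countable_right (fun j => measurable_hfac n j)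
        exact h2.comp (((measurable_ann R).comp (h.poisson.measurable i)).prodMk (h.meas i)))
      (ENNReal.ofReal (Real.exp (K * R)))
    have h3 := hmk.trans (lintegral_exp_markedCount_le h R n)
    have h4 : P {ω | K * R ≤ markedCount R n X M ω} ≤
        ENNReal.ofReal (Real.exp (-(K * R))) * ENNReal.ofReal (Real.exp (K0 * R)) := by
      calc P {ω | K * R ≤ markedCount R n X M ω}
          ≤ P {ω | ENNReal.ofReal (Real.exp (K * R)) ≤
              ENNReal.ofReal (Real.exp (markedCount R n X M ω))} := measure_mono hsub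
        _ = ENNReal.ofReal (Real.exp (-(K * R))) * (ENNReal.ofReal (Real.exp (K * R)) *
            P {ω | ENNReal.ofReal (Real.exp (K * R)) ≤
              ENNReal.ofReal (Real.exp (markedCount R n X M ω))}) := by
            rw [← mul_assoc, ← ENNReal.ofReal_mul (by positivity), ← Real.exp_add]
            simp
        _ ≤ ENNReal.ofReal (Real.exp (-(K * R))) * ENNReal.ofReal (Real.exp (K0 * R)) := by
            gcongr
            refine h3.trans (ENNReal.ofReal_le_ofReal (Real.exp_le_exp.mpr ?_))
            exact hK R n hR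
    refine h4.trans ?_
    rw [← ENNReal.ofReal_mul (by positivity), ← Real.exp_add]
    apply ENNReal.ofReal_le_ofReal
    apply Real.exp_le_exp.mpr
    have hR' : (0 : ℝ) ≤ R := by positivity
    nlinarith
  calc P {ω | ((K * R : ℕ) : ℕ∞) ≤ (marked R X M ω).encard}
      ≤ P (⋃ n, {ω | K * R ≤ markedCount R n X M ω}) := by
        apply measure_mono
        intro ω hω
        rw [mem_iUnion]
        exact exists_markedCount hω
    _ = ⨆ n, P {ω | K * R ≤ markedCount R n X M ω} := by
        apply Monotone.measure_iUnion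
        intro n m hnm ω hω
        exact le_trans (show K * R ≤ markedCount R n X M ω from hω) (markedCount_mono R X M ω hnm)
    _ ≤ ENNReal.ofReal (Real.exp (-R)) := iSup_le hone

end Pool.Agent.H40.BPool
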