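import Mathlib

/-!
# The Brownian Pool model

Deterministic definition of the pool dynamics driven by given particle trajectories, and the
probabilistic input (Poisson point process of starting points, independent planar Brownian
motions).
-/

open MeasureTheory ProbabilityTheory Set
open scoped ENNReal NNReal

namespace Pool.Agent.H40.BPool

/-- The plane. -/
abbrev Plane : Type := EuclideanSpace ℝ (Fin 2)

/-- The closed disc `B(r)` around the origin, for a radius `r ∈ [0,∞]`. -/
def disc (r : ℝ≥0∞) : Set Plane := {y | ‖y‖ₑ ≤ r}

/-- The radius `√(r² + m/π)` of the disc obtained from a disc of radius `r` by adding `m` units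
of mass (of area one each). -/
noncomputable def grow (r : ℝ≥0∞) (m : ℕ∞) : ℝ≥0∞ :=
  (r ^ 2 + (m : ℝ≥0∞) / ENNReal.ofReal Real.pi) ^ (1 / 2 : ℝ)

/-- The recursion run at one time. `act` is the set of active particles, `p i` the current
position of particle `i`, `D` the previous disc (empty for the initial pool) and `r` the radius
`r₀`. The `j`-th term is the pair `(B(r_{j-1}), r_j)` (with `B(r_{-1})` replaced by `D`), where
`r_{j+1} = √(r_j² + ξ_{j+1}/π)` and `ξ_{j+1}` is the number of active particles in
`B(r_j) \ B(r_{j-1})`. -/
noncomputable def recursion (act : Set ℕ) (p : ℕ → Plane) (D : Set Plane) (r : ℝ≥0∞) :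
    ℕ → Set Plane × ℝ≥0∞
  | 0 => (D, r)
  | j + 1 =>
    (disc (recursion act p D r j).2,
      grow (recursion act p D r j).2
        {i ∈ act | p i ∈ disc (recursion act p D r j).2 \ (recursion act p D r j).1}.encard)

/-- `ξ_{j+1}`: the number of active particles in `B(r_j) \ B(r_{j-1})`. -/
noncomputable def xi (act : Set ℕ) (p : ℕ → Plane) (D : Set Plane) (r : ℝ≥0∞) (j : ℕ) : ℕ∞ :=
  {i ∈ act | p i ∈ disc (recursion act p D r j).2 \ (recursion act p D r j).1}.encard

open Classical in
/-- The outcome of the recursion: with `N` the first `j ≥ 1` such that `ξ_j = 0`, it is `r_N`, and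
it is `∞` if there is no such `j`. -/
noncomputable def outcome (act : Set ℕ) (p : ℕ → Plane) (D : Set Plane) (r : ℝ≥0∞) : ℝ≥0∞ :=
  if h : ∃ j, xi act p D r j = 0 then (recursion act p D r (Nat.find h + 1)).2 else ∞

/-- The state of the pool right after an engulfing time. -/
structure PoolState where
  /-- the engulfing time (`∞` if it does not exist) -/
  time : ℝ≥0∞
  /-- the radius of the pool -/
  radius : ℝ≥0∞
  /-- the set of the particles absorbed so far -/
  absorbed : Set ℕ

/-- The first time after `s.time` at which an active particle lies in the pool `B(s.radius)`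
(`∞` if there is none); `x i t` is the position of particle `i` at time `t`. -/
noncomputable def nextTime (x : ℕ → ℝ≥0 → Plane) (s : PoolState) : ℝ≥0∞ :=
  sInf {t : ℝ≥0∞ | s.time < t ∧ ∃ u : ℝ≥0, t = u ∧ ∃ i, i ∉ s.absorbed ∧ x i u ∈ disc s.radius}

/-- The pool right after the next engulfing time. -/
noncomputable def nextState (x : ℕ → ℝ≥0 → Plane) (s : PoolState) : PoolState :=
  if nextTime x s = ∞ then ⟨∞, s.radius, s.absorbed⟩
  else
    let p : ℕ → Plane := fun i => x i (nextTime x s).toNNReal
    let E : ℝ≥0∞ := outcome s.absorbedᶜ p (disc s.radius) (grow s.radius 1)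
    ⟨nextTime x s, E, s.absorbed ∪ {i | p i ∈ disc E}⟩

/-- The initial pool: the recursion is started from `r₀ = 1/√π`, all particles are active, and
the particles in `B(𝓔₀)` are absorbed. -/
noncomputable def initialState (x : ℕ → ℝ≥0 → Plane) : PoolState :=
  let E : ℝ≥0∞ := outcome Set.univ (fun i => x i 0) ∅ (ENNReal.ofReal (1 / Real.sqrt Real.pi))
  ⟨0, E, {i | x i 0 ∈ disc E}⟩

/-- The pool right after the `k`-th engulfing time. -/
noncomputable def poolState (x : ℕ → ℝ≥0 → Plane) : ℕ → PoolState
  | 0 => initialState x
  | k + 1 => nextState x (poolState x k)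

/-- The radius `𝓔_t` of the pool at time `t`: the radius after the last engulfing time `≤ t`, and
the limit of the radii if infinitely many engulfing times are `≤ t` (as each engulfing adds at
least one unit of area, this limit is `∞`). -/
noncomputable def poolRadius (x : ℕ → ℝ≥0 → Plane) (t : ℝ≥0) : ℝ≥0∞ :=
  ⨆ k : ℕ, ⨆ _ : (poolState x k).time ≤ t, (poolState x k).radius

/-- The pool explodes: its radius is infinite at some finite time. -/
def Explodes (x : ℕ → ℝ≥0 → Plane) : Prop := ∃ t : ℝ≥0, poolRadius x t = ∞

section Random

variable {Ω : Type*} [MeasurableSpace Ω]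

/-- The number of points of the sequence `X` in the set `A`. -/
noncomputable def count (X : ℕ → Ω → Plane) (A : Set Plane) (ω : Ω) : ℕ∞ :=
  {i | X i ω ∈ A}.encard

/-- `X 0, X 1, …` enumerates a Poisson point process of intensity `lam` on the plane: the number
of points in a Borel set `A` of finite area is Poisson with mean `lam * area A`, and the numbers
of points in disjoint such sets are independent. -/
structure IsPoissonPointProcess (lam : ℝ≥0) (X : ℕ → Ω → Plane) (P : Measure Ω) : Prop where
  measurable : ∀ i, Measurable (X i)
  hasLaw : ∀ A : Set Plane, MeasurableSet A → volume A ≠ ∞ →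
    HasLaw (count X A) ((poissonMeasure (lam * (volume A).toNNReal)).map (Nat.cast : ℕ → ℕ∞)) P
  indep : ∀ (n : ℕ) (A : Fin n → Set Plane), (∀ j, MeasurableSet (A j)) →
    (∀ j, volume (A j) ≠ ∞) → (∀ j k, j ≠ k → Disjoint (A j) (A k)) →
    iIndepFun (fun j => count X (A j)) P

/-- `W` is a standard planar Brownian motion (started at the origin, with covariance `t • I₂`):
its two coordinates are independent standard real Brownian motions. -/
structure IsPlanarBrownian (W : ℝ≥0 → Ω → Plane) (P : Measure Ω) : Prop where
  measurable : ∀ t, Measurable (W t)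
  coord : ∀ c : Fin 2, IsBrownianReal (fun t ω => W t ω c) P
  indep : iIndepFun (fun (c : Fin 2) ω (t : ℝ≥0) => W t ω c) P

/-- The random input of the Brownian Pool model with intensity `lam`: the starting points `X i`
form a Poisson point process of intensity `lam`, the `B i` are independent standard planar
Brownian motions, and the family of the `B i` is independent of the starting points. -/
structure IsPoolInput (lam : ℝ≥0) (X : ℕ → Ω → Plane) (B : ℕ → ℝ≥0 → Ω → Plane)
    (P : Measure Ω) : Prop where
  poisson : IsPoissonPointProcess lam X P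
  brownian : ∀ i, IsPlanarBrownian (B i) P
  indep_brownian : iIndepFun (fun (i : ℕ) ω (t : ℝ≥0) => B i t ω) P
  indep : IndepFun (fun ω (i : ℕ) => X i ω) (fun ω (i : ℕ) (t : ℝ≥0) => B i t ω) P

end Random

end Pool.Agent.H40.BPool
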