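import Pool.Agent.H40.BPool.Model

open MeasureTheory ProbabilityTheory Set
open scoped ENNReal NNReal Nat

namespace Pool.Agent.H40.BPool

lemma lintegral_poisson (r : ℝ≥0) (f : ℕ → ℝ≥0∞) :
    ∫⁻ n, f n ∂(poissonMeasure r) =
      ∑' n : ℕ, ENNReal.ofReal (Real.exp (-r) * r ^ n / n !) * f n := by
  unfold poissonMeasure
  rw [lintegral_sum_measure]
  congr 1
  funext n
  rw [lintegral_smul_measure, lintegral_dirac]
  rfl

lemma lintegral_exp_poisson (r : ℝ≥0) (θ : ℝ) :
    ∫⁻ n : ℕ, ENNReal.ofReal (Real.exp (θ * n)) ∂(poissonMeasure r) =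
      ENNReal.ofReal (Real.exp (r * (Real.exp θ - 1))) := by
  rw [lintegral_poisson]
  have h1 : ∀ n : ℕ, ENNReal.ofReal (Real.exp (-r) * r ^ n / n !) *
      ENNReal.ofReal (Real.exp (θ * n)) =
      ENNReal.ofReal (Real.exp (-r) * ((r * Real.exp θ) ^ n / n !)) := by
    intro n
    rw [← ENNReal.ofReal_mul (by positivity)]
    congr 1
    rw [mul_pow, ← Real.exp_nat_mul]
    ring_nf
  simp_rw [h1]
  have h2 : HasSum (fun n : ℕ => Real.exp (-r) * ((r * Real.exp θ) ^ n / n !))
      (Real.exp (-r) * Real.exp (r * Real.exp θ)) := by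
    have := (NormedSpace.expSeries_div_hasSum_exp ((r : ℝ) * Real.exp θ)).mul_left (Real.exp (-r))
    rwa [← Real.exp_eq_exp_ℝ] at this
  rw [← ENNReal.ofReal_tsum_of_nonneg (fun n => by positivity) h2.summable, h2.tsum_eq,
    ← Real.exp_add]
  congr 2
  ring

/-- Chernoff bound, upper tail. -/
lemma poisson_upper {r : ℝ≥0} {s : ℝ} (hs0 : 0 ≤ s) (hs : s ≤ 2 * r) (hr : 0 < r) :
    poissonMeasure r {n : ℕ | (r : ℝ) + s ≤ n} ≤ ENNReal.ofReal (Real.exp (-(s ^ 2 / (4 * r)))) := by
  set θ : ℝ := s / (2 * r) with hθ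
  have hrp : (0 : ℝ) < r := hr
  have hθ0 : 0 ≤ θ := by positivity
  have hθ1 : θ ≤ 1 := by
    rw [hθ, div_le_one (by positivity)]
    exact hs
  have hexp : Real.exp θ - 1 ≤ θ + θ ^ 2 := by
    have := Real.abs_exp_sub_one_sub_id_le (x := θ) (by rw [abs_of_nonneg hθ0]; exact hθ1)
    rw [abs_le] at this
    linarith [this.2]
  calc poissonMeasure r {n : ℕ | (r : ℝ) + s ≤ n}
      ≤ ∫⁻ n : ℕ, ENNReal.ofReal (Real.exp (-(θ * (r + s)))) * ENNReal.ofReal (Real.exp (θ * n))
          ∂(poissonMeasure r) := by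
        rw [← lintegral_indicator_one (MeasurableSet.of_discrete)]
        apply lintegral_mono
        intro n
        by_cases hn : n ∈ {n : ℕ | (r : ℝ) + s ≤ n}
        · simp only [indicator_of_mem hn, Pi.one_apply]
          rw [← ENNReal.ofReal_mul (by positivity), ← Real.exp_add]
          rw [← ENNReal.ofReal_one]
          apply ENNReal.ofReal_le_ofReal
          rw [← Real.exp_zero]
          apply Real.exp_le_exp.mpr
          have hn' : (r : ℝ) + s ≤ n := hn
          nlinarith
        · simp [indicator_of_notMem hn]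
    _ = ENNReal.ofReal (Real.exp (-(θ * (r + s)))) *
          ENNReal.ofReal (Real.exp (r * (Real.exp θ - 1))) := by
        rw [lintegral_const_mul _ (by fun_prop), lintegral_exp_poisson]
    _ ≤ ENNReal.ofReal (Real.exp (-(s ^ 2 / (4 * r)))) := by
        rw [← ENNReal.ofReal_mul (by positivity), ← Real.exp_add]
        apply ENNReal.ofReal_le_ofReal
        apply Real.exp_le_exp.mpr
        have h1 : (r : ℝ) * (Real.exp θ - 1) ≤ r * (θ + θ ^ 2) :=
          mul_le_mul_of_nonneg_left hexp hrp.le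
        have h2 : -(θ * (r + s)) + r * (θ + θ ^ 2) = -(s ^ 2 / (4 * r)) := by
          rw [hθ]
          field_simp
          ring
        linarith

/-- Chernoff bound, lower tail. -/
lemma poisson_lower {r : ℝ≥0} {s : ℝ} (hs0 : 0 ≤ s) (hr : 0 < r) :
    poissonMeasure r {n : ℕ | (n : ℝ) ≤ r - s} ≤ ENNReal.ofReal (Real.exp (-(s ^ 2 / (2 * r)))) := by
  set θ : ℝ := s / r with hθ
  have hrp : (0 : ℝ) < r := hr
  have hθ0 : 0 ≤ θ := by positivity
  have hexp : Real.exp (-θ) - 1 ≤ -θ + θ ^ 2 / 2 := by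
    have h1 : 1 + θ + θ ^ 2 / 2 ≤ Real.exp θ := by
      have := Real.quadratic_le_exp_of_nonneg hθ0
      linarith
    have h2 : Real.exp (-θ) ≤ 1 / (1 + θ + θ ^ 2 / 2) := by
      rw [Real.exp_neg, ← one_div]
      apply one_div_le_one_div_of_le (by positivity) h1
    have h3 : 1 / (1 + θ + θ ^ 2 / 2) ≤ 1 - θ + θ ^ 2 / 2 := by
      rw [div_le_iff₀ (by positivity)]
      nlinarith [sq_nonneg θ, sq_nonneg (θ ^ 2)]
    linarith
  calc poissonMeasure r {n : ℕ | (n : ℝ) ≤ r - s}
      ≤ ∫⁻ n : ℕ, ENNReal.ofReal (Real.exp (θ * (r - s))) * ENNReal.ofReal (Real.exp (-θ * n))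
          ∂(poissonMeasure r) := by
        rw [← lintegral_indicator_one (MeasurableSet.of_discrete)]
        apply lintegral_mono
        intro n
        by_cases hn : n ∈ {n : ℕ | (n : ℝ) ≤ r - s}
        · simp only [indicator_of_mem hn, Pi.one_apply]
          rw [← ENNReal.ofReal_mul (by positivity), ← Real.exp_add]
          rw [← ENNReal.ofReal_one]
          apply ENNReal.ofReal_le_ofReal
          rw [← Real.exp_zero]
          apply Real.exp_le_exp.mpr
          have hn' : (n : ℝ) ≤ r - s := hn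
          nlinarith
        · simp [indicator_of_notMem hn]
    _ = ENNReal.ofReal (Real.exp (θ * (r - s))) *
          ENNReal.ofReal (Real.exp (r * (Real.exp (-θ) - 1))) := by
        rw [lintegral_const_mul _ (by fun_prop), lintegral_exp_poisson]
    _ ≤ ENNReal.ofReal (Real.exp (-(s ^ 2 / (2 * r)))) := by
        rw [← ENNReal.ofReal_mul (by positivity), ← Real.exp_add]
        apply ENNReal.ofReal_le_ofReal
        apply Real.exp_le_exp.mpr
        have h1 : (r : ℝ) * (Real.exp (-θ) - 1) ≤ r * (-θ + θ ^ 2 / 2) :=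
          mul_le_mul_of_nonneg_left hexp hrp.le
        have h2 : θ * (r - s) + r * (-θ + θ ^ 2 / 2) = -(s ^ 2 / (2 * r)) := by
          rw [hθ]
          field_simp
          ring
        linarith

/-- Comparison of two Poisson laws. -/
lemma poisson_tilt {r r' : ℝ≥0} (hr' : 0 < r') (hrr : r' ≤ r) {a : ℝ} (ha0 : 0 ≤ a) (S : Set ℕ)
    (hS : ∀ n ∈ S, a ≤ (n : ℝ)) :
    ENNReal.ofReal (Real.exp (-(r - r') * (r - a) / r)) * poissonMeasure r' S ≤
      poissonMeasure r S := by
  have hrp' : (0 : ℝ) < r' := hr'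
  have hrr' : (r' : ℝ) ≤ r := hrr
  have hrp : (0 : ℝ) < r := by linarith
  rw [← lintegral_indicator_one (MeasurableSet.of_discrete (s := S)),
    ← lintegral_indicator_one (MeasurableSet.of_discrete (s := S)), lintegral_poisson,
    lintegral_poisson, ← ENNReal.tsum_mul_left]
  apply ENNReal.tsum_le_tsum
  intro n
  by_cases hn : n ∈ S
  · simp only [indicator_of_mem hn, Pi.one_apply, mul_one]
    rw [← ENNReal.ofReal_mul (by positivity)]
    apply ENNReal.ofReal_le_ofReal
    have han : a ≤ (n : ℝ) := hS n hn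
    rw [← mul_div_assoc]
    apply div_le_div_of_nonneg_right _ (by positivity)
    -- exp(-(r-r')(r-a)/r) * exp(-r') * r'^n ≤ exp(-r) r^n
    have hlog : Real.log (r / r') ≥ (r - r') / r := by
      have := Real.one_sub_inv_le_log_of_pos (x := (r : ℝ) / r') (by positivity)
      have e : 1 - ((r : ℝ) / r')⁻¹ = (r - r') / r := by
        rw [inv_div]; field_simp
      rw [e] at this
      exact this
    have hpow : Real.exp (n * ((r - r') / r)) * (r' : ℝ) ^ n ≤ (r : ℝ) ^ n := by
      have h1 : Real.exp (n * ((r - r') / r)) ≤ Real.exp (n * Real.log (r / r')) := by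
        apply Real.exp_le_exp.mpr
        apply mul_le_mul_of_nonneg_left hlog (by positivity)
      have h2 : Real.exp (n * Real.log (r / r')) = ((r : ℝ) / r') ^ n := by
        rw [Real.exp_nat_mul, Real.exp_log (by positivity)]
      rw [h2] at h1
      calc Real.exp (n * ((r - r') / r)) * (r' : ℝ) ^ n ≤ ((r : ℝ) / r') ^ n * (r' : ℝ) ^ n :=
            mul_le_mul_of_nonneg_right h1 (by positivity)
        _ = (r : ℝ) ^ n := by
            rw [← mul_pow, div_mul_cancel₀ _ hrp'.ne']
    calc Real.exp (-(r - r') * (r - a) / r) * (Real.exp (-r') * (r' : ℝ) ^ n)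
        = Real.exp (-r) * (Real.exp (a * ((r - r') / r)) * (r' : ℝ) ^ n) := by
          rw [← mul_assoc, ← mul_assoc, ← Real.exp_add, ← Real.exp_add]
          congr 2
          field_simp
          ring
      _ ≤ Real.exp (-r) * (Real.exp (n * ((r - r') / r)) * (r' : ℝ) ^ n) := by
          gcongr
      _ ≤ Real.exp (-r) * (r : ℝ) ^ n := by
          gcongr
  · simp [indicator_of_notMem hn]

/-- Lower deviations by a constant number of standard deviations have probability bounded from
below. -/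
lemma poisson_lower_dev (C : ℝ) (hC : 0 ≤ C) :
    ∃ δ : ℝ, 0 < δ ∧ ∃ r0 : ℝ≥0, ∀ r : ℝ≥0, r0 ≤ r →
      ENNReal.ofReal δ ≤ poissonMeasure r {n : ℕ | (n : ℝ) ≤ r - C * Real.sqrt r} := by
  set D : ℝ := C + 4 with hD
  refine ⟨1 / 2 * Real.exp (-(D * (D + 4))), by positivity, ⟨(2 * D + 8) ^ 2, by positivity⟩, ?_⟩
  intro r hr
  have hr0 : (2 * D + 8) ^ 2 ≤ (r : ℝ) := by exact_mod_cast hr
  have hDpos : 4 ≤ D := by linarith
  have hsqrt : 2 * D + 8 ≤ Real.sqrt r := Real.le_sqrt_of_sq_le hr0
  have hrpos : (0 : ℝ) < r := by nlinarith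
  have hsq : Real.sqrt r * Real.sqrt r = r := Real.mul_self_sqrt hrpos.le
  set q : ℝ := Real.sqrt r with hq
  have hqpos : 0 < q := by linarith
  -- r' = r - D √r
  have hr'nn : 0 ≤ (r : ℝ) - D * q := by nlinarith
  set r' : ℝ≥0 := ⟨(r : ℝ) - D * q, hr'nn⟩ with hr'def
  have hr'coe : (r' : ℝ) = r - D * q := rfl
  have hr'half : (r : ℝ) / 2 ≤ r' := by rw [hr'coe]; nlinarith
  have hr'pos : 0 < r' := by
    have : (0 : ℝ) < r' := by linarith
    exact_mod_cast this
  have hr'le : r' ≤ r := by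
    have : (r' : ℝ) ≤ r := by rw [hr'coe]; nlinarith
    exact_mod_cast this
  have hr'pos' : (0 : ℝ) < r' := by exact_mod_cast hr'pos
  set q' : ℝ := Real.sqrt r' with hq'
  have hsq' : q' * q' = r' := Real.mul_self_sqrt hr'pos'.le
  have hq'q : q' ≤ q := Real.sqrt_le_sqrt (by exact_mod_cast hr'le)
  have hq'pos : 0 < q' := Real.sqrt_pos.mpr hr'pos'
  have hq'8 : 4 ≤ q' := by
    rw [hq']
    apply Real.le_sqrt_of_sq_le
    nlinarith
  set S : Set ℕ := {n : ℕ | (r' : ℝ) - 4 * q' < n ∧ (n : ℝ) < r' + 4 * q'} with hS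
  have hSbig : ENNReal.ofReal (1 / 2) ≤ poissonMeasure r' S := by
    have hcompl : poissonMeasure r' Sᶜ ≤ ENNReal.ofReal (1 / 2) := by
      have hsub : Sᶜ ⊆ {n : ℕ | (r' : ℝ) + 4 * q' ≤ n} ∪ {n : ℕ | (n : ℝ) ≤ r' - 4 * q'} := by
        intro n hn
        simp only [hS, mem_compl_iff, mem_ofPred_eq, not_and_or, not_lt] at hn
        rcases hn with hn | hn
        · exact Or.inr hn
        · exact Or.inl hn
      have hu := poisson_upper (r := r') (s := 4 * q') (by positivity) (by nlinarith) hr'pos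
      have hl := poisson_lower (r := r') (s := 4 * q') (by positivity) hr'pos
      have e1 : (4 * q') ^ 2 / (4 * (r' : ℝ)) = 4 := by
        rw [← hsq']; field_simp; try norm_num
      have e2 : (4 * q') ^ 2 / (2 * (r' : ℝ)) = 8 := by
        rw [← hsq']; field_simp; try norm_num
      rw [e1] at hu
      rw [e2] at hl
      have hexp4 : Real.exp (-4) ≤ 1 / 4 := by
        have h : (4 : ℝ) ≤ Real.exp 4 := by
          have := Real.add_one_le_exp (4 : ℝ)
          linarith
        rw [Real.exp_neg]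
        rw [one_div]
        apply inv_anti₀ (by norm_num) h
      have hexp8 : Real.exp (-8) ≤ 1 / 4 := by
        have : Real.exp (-8) ≤ Real.exp (-4) := Real.exp_le_exp.mpr (by norm_num)
        linarith
      calc poissonMeasure r' Sᶜ ≤ _ := measure_mono hsub
        _ ≤ _ := measure_union_le _ _
        _ ≤ ENNReal.ofReal (Real.exp (-4)) + ENNReal.ofReal (Real.exp (-8)) := add_le_add hu hl
        _ ≤ ENNReal.ofReal (1 / 4) + ENNReal.ofReal (1 / 4) := by gcongr
        _ = ENNReal.ofReal (1 / 2) := by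
            rw [← ENNReal.ofReal_add (by norm_num) (by norm_num)]
            norm_num
    have hone : poissonMeasure r' S + poissonMeasure r' Sᶜ = 1 := by
      rw [measure_add_measure_compl (MeasurableSet.of_discrete)]
      exact measure_univ
    by_contra hcon
    push Not at hcon
    have : poissonMeasure r' S + poissonMeasure r' Sᶜ < ENNReal.ofReal (1 / 2) +
        ENNReal.ofReal (1 / 2) := ENNReal.add_lt_add_of_lt_of_le (by
          exact ne_top_of_le_ne_top ENNReal.ofReal_ne_top hcompl) hcon hcompl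
    rw [hone, ← ENNReal.ofReal_add (by norm_num) (by norm_num)] at this
    norm_num at this
  have hSsub : S ⊆ {n : ℕ | (n : ℝ) ≤ r - C * q} := by
    intro n hn
    have h1 : (n : ℝ) < r' + 4 * q' := hn.2
    simp only [mem_ofPred_eq]
    rw [hr'coe] at h1
    nlinarith
  have ha0 : 0 ≤ (r' : ℝ) - 4 * q' := by nlinarith
  have htilt := poisson_tilt hr'pos hr'le ha0 S (fun n hn => (hn.1).le)
  have hexpo : -(D * (D + 4)) ≤ -((r : ℝ) - r') * (r - ((r' : ℝ) - 4 * q')) / r := by
    rw [le_div_iff₀ hrpos, hr'coe]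
    have : ((r : ℝ) - (r - D * q)) * (r - ((r - D * q) - 4 * q')) ≤ (D * q) * ((D + 4) * q) := by
      have h1 : (r : ℝ) - (r - D * q) = D * q := by ring
      have h2 : (r : ℝ) - ((r - D * q) - 4 * q') = D * q + 4 * q' := by ring
      rw [h1, h2]
      apply mul_le_mul_of_nonneg_left _ (by positivity)
      nlinarith
    have e : (D * q) * ((D + 4) * q) = D * (D + 4) * r := by
      rw [← hsq]; ring
    rw [e] at this
    nlinarith
  calc ENNReal.ofReal (1 / 2 * Real.exp (-(D * (D + 4))))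
      = ENNReal.ofReal (Real.exp (-(D * (D + 4)))) * ENNReal.ofReal (1 / 2) := by
        rw [← ENNReal.ofReal_mul (by positivity)]
        congr 1; ring
    _ ≤ ENNReal.ofReal (Real.exp (-((r : ℝ) - r') * (r - ((r' : ℝ) - 4 * q')) / r)) *
        poissonMeasure r' S := by
        gcongr
    _ ≤ poissonMeasure r S := htilt
    _ ≤ poissonMeasure r {n : ℕ | (n : ℝ) ≤ r - C * q} := measure_mono hSsub

end Pool.Agent.H40.BPool
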